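import Mathlib

/-!
Bumps on shifted grids: few of them overlap, each point is deep inside a cell of one grid, and the
derivatives grow polynomially with the dimension.
-/

set_option autoImplicit false

open Finset Real Filter Topology
open scoped ContDiff

namespace Pool.Agent.Lib.MP_5ea425_an.Smooth

theorem st_bound (k : ℕ) :
    ∃ C : ℝ, 1 ≤ C ∧ ∀ i ≤ k, ∀ x, ‖iteratedFDeriv ℝ i smoothTransition x‖ ≤ C ^ i := by
  choose B hB using fun i : ℕ => (isCompact_Icc (a := (0 : ℝ)) (b := 1)).exists_bound_of_continuousOn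
    ((smoothTransition.contDiff (n := i)).continuous_iteratedFDeriv (m := i) le_rfl).continuousOn
  have h0 : 0 ≤ ∑ i ∈ range (k + 1), |B i| := sum_nonneg fun _ _ => abs_nonneg _
  refine ⟨1 + ∑ i ∈ range (k + 1), |B i|, by linarith, fun i hi x => ?_⟩
  rcases eq_or_ne i 0 with rfl | h
  · rw [norm_iteratedFDeriv_zero, pow_zero, norm_of_nonneg (smoothTransition.nonneg x)]
    exact smoothTransition.le_one x
  have h1 : ∀ c : ℝ, smoothTransition =ᶠ[𝓝 x] (fun _ => c) →
      ‖iteratedFDeriv ℝ i smoothTransition x‖ ≤ (1 + ∑ i ∈ range (k + 1), |B i|) ^ i := fun c e => by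
    rw [(e.iteratedFDeriv ℝ i).eq_of_nhds, iteratedFDeriv_const_of_ne h, Pi.zero_apply, norm_zero]
    positivity
  rcases lt_or_ge x 0 with a1 | a1
  · exact h1 0 ((eventually_lt_nhds a1).mono fun y hy => smoothTransition.zero_of_nonpos hy.le)
  rcases lt_or_ge 1 x with a2 | a2
  · exact h1 1 ((eventually_gt_nhds a2).mono fun y hy => smoothTransition.one_of_one_le hy.le)
  refine (hB i x ⟨a1, a2⟩).trans (le_trans ?_ (le_self_pow₀ (by linarith) h))
  linarith [le_abs_self (B i), single_le_sum (f := fun i => |B i|) (fun _ _ => abs_nonneg _)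
    (mem_range.2 (Nat.lt_succ_of_le hi))]

variable {E F G : Type*} [NormedAddCommGroup E] [NormedSpace ℝ E] [NormedAddCommGroup F]
  [NormedSpace ℝ F] [NormedAddCommGroup G] [NormedSpace ℝ G]

theorem comp_le {g : F → G} (hg : ContDiff ℝ ∞ g) (ℓ : E →L[ℝ] F) (i : ℕ) (x : E) :
    ‖iteratedFDeriv ℝ i (g ∘ ℓ) x‖ ≤ ‖iteratedFDeriv ℝ i g (ℓ x)‖ * ‖ℓ‖ ^ i := by
  rw [ℓ.iteratedFDeriv_comp_right hg x (mod_cast le_top)]
  exact (ContinuousMultilinearMap.norm_compContinuousLinearMap_le _ _).trans_eq (by simp)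

theorem prod_bound {ι : Type*} (s : Finset ι) {f : ι → E → ℝ} (hf : ∀ j, ContDiff ℝ ∞ (f j)) {A : ℝ}
    (hA : 0 ≤ A) {k : ℕ} {x : E} (h : ∀ j, ∀ i ≤ k, ‖iteratedFDeriv ℝ i (f j) x‖ ≤ A ^ i) :
    ∀ i ≤ k, ‖iteratedFDeriv ℝ i (fun x => ∏ j ∈ s, f j x) x‖ ≤ (s.card * A) ^ i := by
  classical
  induction s using Finset.induction_on with
  | empty =>
    intro i _
    rcases eq_or_ne i 0 with rfl | h
    · simp
    · simp [iteratedFDeriv_const_of_ne h, h]
  | insert a s ha ih =>
    intro i hi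
    simp only [prod_insert ha]
    refine (norm_iteratedFDeriv_mul_le (hf a) (contDiff_prod fun j _ => hf j) x
      (mod_cast le_top)).trans ?_
    rw [card_insert_of_notMem ha, Nat.cast_succ, add_mul, one_mul, add_comm _ A, add_pow]
    refine sum_le_sum fun l hl => ?_
    rw [mul_assoc, mul_comm]
    have := mem_range.1 hl
    gcongr
    exacts [h a l (by omega), ih _ (by omega)]

theorem smul_sum_le {ι : Type*} [Fintype ι] {β : ι → E → ℝ} (hβ : ∀ a, ContDiff ℝ ∞ (β a))
    {e : ι → F} {C : ℝ} (he : ∀ a, ‖e a‖ ≤ C) (i : ℕ) (x : E) :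
    ‖iteratedFDeriv ℝ i (fun x => ∑ a, β a x • e a) x‖ ≤
      C * ∑ a, ‖iteratedFDeriv ℝ i (β a) x‖ := by
  have a0 : ∀ a, ContDiff ℝ i (β a) := fun a => (hβ a).of_le (mod_cast le_top)
  rw [iteratedFDeriv_fun_sum_apply (f := fun a x => β a x • e a)
    fun a _ => ((a0 a).smul contDiff_const).contDiffAt, mul_sum]
  refine (norm_sum_le _ _).trans (sum_le_sum fun a _ => ?_)
  refine (((ContinuousLinearMap.id ℝ ℝ).smulRight (e a)).norm_iteratedFDeriv_comp_left
    (a0 a).contDiffAt le_rfl).trans ?_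
  rw [ContinuousLinearMap.norm_smulRight_apply, ContinuousLinearMap.norm_id, one_mul]
  exact mul_le_mul_of_nonneg_right (he a) (norm_nonneg _)

theorem cover {D : Type} [Fintype D] (u : D → ℝ) : ∃ (s : Fin (Fintype.card D + 1)) (c : D → ℤ),
    ∀ d, 1 / 2 ≤ u d - s - (Fintype.card D + 1) * c d ∧
      u d - s - (Fintype.card D + 1) * c d ≤ Fintype.card D + 1 - 1 / 2 := by
  classical
  set N := Fintype.card D + 1 with hN
  have N0 : (0 : ℤ) < N := by positivity
  obtain ⟨s, -, hs⟩ := exists_mem_notMem_of_card_lt_card (s := univ.image fun d : D =>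
    (⟨(⌊u d + 1 / 2⌋ % N).toNat, by
      have := Int.emod_lt_of_pos ⌊u d + 1 / 2⌋ N0
      have := Int.emod_nonneg ⌊u d + 1 / 2⌋ N0.ne'
      omega⟩ : Fin N)) (t := univ) (card_image_le.trans_lt (by simp [hN]))
  refine ⟨s, fun d => (⌊u d + 1 / 2⌋ - s) / N, fun d => ?_⟩
  have a1 := Int.mul_ediv_add_emod (⌊u d + 1 / 2⌋ - s) N
  have a2 := Int.emod_lt_of_pos (⌊u d + 1 / 2⌋ - s) N0
  have a3 := Int.emod_nonneg (⌊u d + 1 / 2⌋ - s) N0.ne'
  have a4 : (⌊u d + 1 / 2⌋ - s) % N ≠ 0 := fun h => hs (mem_image.2 ⟨d, mem_univ _, Fin.ext (by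
    have b1 := (Int.emod_eq_emod_iff_emod_sub_eq_zero.2 h).trans
      (Int.emod_eq_of_lt (Int.natCast_nonneg s) (by exact_mod_cast s.2))
    simp only [b1, Int.toNat_natCast])⟩)
  have a5 : ((1 : ℤ) : ℝ) ≤ (⌊u d + 1 / 2⌋ - s - N * ((⌊u d + 1 / 2⌋ - s) / N) : ℤ) :=
    Int.cast_le.2 (by omega)
  have a6 : ((⌊u d + 1 / 2⌋ - s - N * ((⌊u d + 1 / 2⌋ - s) / N) : ℤ) : ℝ) ≤ ((N - 1 : ℤ) : ℝ) :=
    Int.cast_le.2 (by omega)
  simp only [Int.cast_sub, Int.cast_mul, Int.cast_natCast, Int.cast_one, hN, Nat.cast_succ,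
    Int.cast_add] at a5 a6
  simp only [hN, Nat.cast_succ]
  exact ⟨by linarith [Int.floor_le (u d + 1 / 2)], by linarith [Int.lt_floor_add_one (u d + 1 / 2)]⟩

theorem bumps (k : ℕ) : ∃ C : ℝ, 1 ≤ C ∧ ∀ (D : Type) [Fintype D] (r b : ℝ), 0 < r →
    ∃ (A : Type) (_ : Fintype A) (β : A → (D → ℝ) → ℝ), (∀ a, ContDiff ℝ ∞ (β a)) ∧
      (∀ a p, 0 ≤ β a p ∧ β a p ≤ 1) ∧ (∀ i ≤ k, ∀ p, ∑ a, ‖iteratedFDeriv ℝ i (β a) p‖ ≤
        (Fintype.card D + 1) * (C * (Fintype.card D + 1) ^ 2 / r) ^ i) ∧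
      (∀ p, (∀ d, |p d| ≤ b) → ∃ a, β a p = 1) ∧
      ∀ a p q d, r ≤ |p d - q d| → β a p * β a q = 0 := by
  classical
  obtain ⟨C, hC, hb⟩ := st_bound k
  refine ⟨8 * C, by linarith, fun D _ r b hr => ?_⟩
  obtain ⟨N, hN⟩ : ∃ N : ℝ, N = Fintype.card D + 1 := ⟨_, rfl⟩
  have N0 : 0 < N := by rw [hN]; positivity
  obtain ⟨n, hn⟩ := exists_nat_ge (b / r + 2)
  let J : Finset (Fin (Fintype.card D + 1) × (D → ℤ)) :=
    univ ×ˢ Fintype.piFinset fun _ => Icc (-n : ℤ) n
  let y : J → (D → ℝ) → D → ℝ := fun a p d => N / r * p d - a.1.1 - N * a.1.2 d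
  let f : J → D × Bool → (D → ℝ) → ℝ := fun a z => (fun t => smoothTransition (t +
    if z.2 then -4 * (a.1.1 + N * a.1.2 z.1) - 1 else 4 * (a.1.1 + N * a.1.2 z.1 + N) - 1)) ∘
    ⇑((if z.2 then 4 * (N / r) else -(4 * (N / r))) •
      (ContinuousLinearMap.proj z.1 : (D → ℝ) →L[ℝ] ℝ) : (D → ℝ) →L[ℝ] ℝ)
  have f1 : ∀ a d p, f a (d, true) p = smoothTransition (4 * y a p d - 1) := fun a d p =>
    congrArg smoothTransition (by simp [y]; ring)
  have f2 : ∀ a d p, f a (d, false) p = smoothTransition (4 * (N - y a p d) - 1) := fun a d p =>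
    congrArg smoothTransition (by simp [y]; ring)
  have f3 : ∀ t : ℝ, ContDiff ℝ ∞ fun z => smoothTransition (z + t) := fun t =>
    smoothTransition.contDiff.comp (contDiff_id.add contDiff_const)
  have f4 : ∀ a z, ContDiff ℝ ∞ (f a z) := fun a z => (f3 _).comp (ContinuousLinearMap.contDiff _)
  have a1 : ∀ a p, ∏ z, f a z p ≠ 0 → ∀ d, 1 / 4 ≤ y a p d ∧ y a p d ≤ N - 1 / 4 := fun a p h d => by
    have b1 := prod_ne_zero_iff.1 h (d, true) (mem_univ _)
    have b2 := prod_ne_zero_iff.1 h (d, false) (mem_univ _)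
    rw [f1, Ne, smoothTransition.zero_iff_nonpos] at b1
    rw [f2, Ne, smoothTransition.zero_iff_nonpos] at b2
    exact ⟨by linarith, by linarith⟩
  refine ⟨J, inferInstance, fun a p => ∏ z, f a z p, fun a => contDiff_prod fun z _ => f4 a z,
    fun a p => ⟨prod_nonneg fun z _ => smoothTransition.nonneg _, prod_le_one
      (fun z _ => smoothTransition.nonneg _) fun z _ => smoothTransition.le_one _⟩,
    fun i hi p => ?_, fun p hp => ?_, fun a p q d h => ?_⟩
  · rw [← hN, ← sum_filter_add_sum_filter_not _ fun a => ∀ d, 1 / 4 ≤ y a p d ∧ y a p d ≤ N - 1 / 4,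
      sum_eq_zero (s := univ.filter fun a => ¬ _) fun a ha => ?_, add_zero]
    · refine (sum_le_card_nsmul _ _ ((8 * C * N ^ 2 / r) ^ i) fun a _ => ?_).trans ?_
      · refine (prod_bound univ (f4 a) (A := C * (4 * (N / r))) (by positivity)
          (fun z l hl => (comp_le (f3 _) _ l p).trans ?_) i hi).trans ?_
        · rw [iteratedFDeriv_comp_add_right, mul_pow]
          refine mul_le_mul (hb l hl _) (pow_le_pow_left₀ (norm_nonneg _)
            (ContinuousLinearMap.opNorm_le_bound _ (by positivity) fun x => ?_) l) (by positivity)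
            (by positivity)
          rw [ContinuousLinearMap.smul_apply, norm_smul]
          refine mul_le_mul (le_of_eq ?_) (norm_le_pi_norm x z.1) (norm_nonneg _) (by positivity)
          split_ifs
          · exact norm_of_nonneg (by positivity)
          · rw [norm_neg, norm_of_nonneg (by positivity)]
        · refine pow_le_pow_left₀ (mul_nonneg (Nat.cast_nonneg _) (by positivity)) ?_ i
          rw [card_univ, Fintype.card_prod, Fintype.card_bool, show 8 * C * N ^ 2 / r =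
            N * 2 * (C * (4 * (N / r))) by ring]
          push_cast
          gcongr
          linarith
      · rw [nsmul_eq_mul]
        gcongr
        rw [hN]
        have := card_le_card_of_injOn (fun a : J => a.1.1) (t := univ) (s := univ.filter
          fun a => ∀ d, 1 / 4 ≤ y a p d ∧ y a p d ≤ N - 1 / 4) (fun _ _ => mem_univ _)
          fun a ha a' ha' (e : a.1.1 = a'.1.1) => Subtype.ext (Prod.ext e (funext fun d => by
            have c1 := (mem_filter.1 ha).2 d
            have c2 := (mem_filter.1 ha').2 d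
            simp only [y, e] at c1 c2
            have c3 : (a.1.2 d : ℝ) < a'.1.2 d + 1 := lt_of_mul_lt_mul_left (by linarith) N0.le
            have c4 : (a'.1.2 d : ℝ) < a.1.2 d + 1 := lt_of_mul_lt_mul_left (by linarith) N0.le
            have c5 : a.1.2 d < a'.1.2 d + 1 := by exact_mod_cast c3
            have c6 : a'.1.2 d < a.1.2 d + 1 := by exact_mod_cast c4
            omega))
        rw [card_univ, Fintype.card_fin] at this
        rw [← hN]
        exact (Nat.cast_le.2 this).trans_eq (by rw [hN, Nat.cast_succ])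
    · refine norm_eq_zero.2 (not_not.1 fun h => (mem_filter.1 ha).2 ?_)
      refine closure_minimal (t := {p | ∀ d, 1 / 4 ≤ y a p d ∧ y a p d ≤ N - 1 / 4}) (a1 a) ?_
        (support_iteratedFDeriv_subset i h)
      simp only [Set.setOf_forall, Set.setOf_and, y]
      exact isClosed_iInter fun d => (isClosed_le (by fun_prop) (by fun_prop)).inter
        (isClosed_le (by fun_prop) (by fun_prop))
  · obtain ⟨s, c, h⟩ := cover fun d => N / r * p d
    rw [← hN] at h
    have s0 : (0 : ℝ) ≤ s := Nat.cast_nonneg _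
    have s1 : (s : ℝ) ≤ N := by
      rw [hN]
      exact_mod_cast s.2.le
    refine ⟨⟨(s, c), mem_product.2 ⟨mem_univ _, Fintype.mem_piFinset.2 fun d => ?_⟩⟩,
      prod_eq_one fun ⟨d, t⟩ _ => ?_⟩
    · have b1 := mul_le_mul_of_nonneg_left (abs_le.1 (hp d)).1 (by positivity : 0 ≤ N / r)
      have b2 := mul_le_mul_of_nonneg_left (abs_le.1 (hp d)).2 (by positivity : 0 ≤ N / r)
      have b3 := mul_le_mul_of_nonneg_left hn N0.le
      have b4 : N / r * b = N * (b / r) := by ring
      have c1 : (c d : ℝ) ≤ n := le_of_mul_le_mul_left (by linarith [h d]) N0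
      have c2 : (-n : ℝ) ≤ c d := le_of_mul_le_mul_left (by linarith [h d]) N0
      exact mem_Icc.2 ⟨by exact_mod_cast c2, by exact_mod_cast c1⟩
    · cases t
      · rw [f2]
        exact smoothTransition.one_of_one_le (by linarith [h d])
      · rw [f1]
        exact smoothTransition.one_of_one_le (by linarith [h d])
  · by_contra h0
    have b1 := a1 a p (left_ne_zero_of_mul h0) d
    have b2 := a1 a q (right_ne_zero_of_mul h0) d
    have b3 := mul_le_mul_of_nonneg_left h (by positivity : 0 ≤ N / r)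
    rw [div_mul_cancel₀ _ hr.ne', ← abs_of_pos (div_pos N0 hr), ← abs_mul, mul_sub] at b3
    simp only [y] at b1 b2
    rcases le_abs.1 b3 with b4 | b4 <;> linarith

end Pool.Agent.Lib.MP_5ea425_an.Smooth
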