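import Pool.Agent.Lib.MP_5ea425_an.Smooth.Frame

/-!
The splitting of a ball of a normed space into two sets with few points on each line of the domain
and of the range.
-/

set_option autoImplicit false

open Finset Real

namespace Pool.Agent.Lib.MP_5ea425_an.Smooth

variable {X : Type*} [NormedAddCommGroup X] [NormedSpace ℝ X] {R M : ℕ} {w : ℝ}

/-- A point of the domain or its image. -/
def cf (T : X → X) (σ : Bool) (x : X) : X := if σ then T x else x

/-- Bounded base points at which `y` has a large reading. -/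
def Lf (ψ : Bs M → X →L[ℝ] ℝ) (b θ : ℝ) (y : X) (q : Bs M) : Prop :=
  (∀ z, |q (some z)| < b) ∧ θ < |ψ q y|

theorem fewB {ψ : Bs M → X →L[ℝ] ℝ} {b θ η : ℝ} (hθ : 0 < θ) (hη1 : η ≤ 1)
    (hη : 1 ≤ η * (R * M)) {y v : X} {Y : Fin R × Fin M → X} {q : Bs M} {i s' : Fin R × Fin M}
    (h1 : ∀ s, η < |(fr R M w).τ s - (fr R M w).τ i| →
      |ψ q (Y s) - ψ q (y + (fr R M w).τ s • v)| ≤ η / 8 * θ)
    (h2 : Lf ψ b θ (y + (fr R M w).τ s' • v) q) :
    cnt (fun s => ¬ Lf ψ b (η / 8 * θ) (Y s) q) ≤ 6 * η * (R * M) := by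
  have a0 : 0 < η := pos_of_mul_pos_left (one_pos.trans_le hη) (gpos i).le
  have a1 : ∃ c, ∀ s, |ψ q (y + (fr R M w).τ s • v)| ≤ η / 4 * θ → |(fr R M w).τ s - c| ≤ η := by
    by_cases h : ∃ s₁, |ψ q (y + (fr R M w).τ s₁ • v)| ≤ η / 4 * θ
    · obtain ⟨s₁, h⟩ := h
      refine ⟨(fr R M w).τ s₁, fun s hs => ?_⟩
      have b1 := h2.2
      simp only [map_add, map_smul, smul_eq_mul] at h hs b1
      have b2 := abs_sub_abs_le_abs_sub (ψ q y + (fr R M w).τ s' * ψ q v)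
        (ψ q y + (fr R M w).τ s₁ * ψ q v)
      have b3 := abs_sub (ψ q y + (fr R M w).τ s * ψ q v) (ψ q y + (fr R M w).τ s₁ * ψ q v)
      rw [add_sub_add_left_eq_sub, ← sub_mul, abs_mul] at b2 b3
      have b4 := mul_le_mul_of_nonneg_right (tau_sub (w := w) s' s₁) (abs_nonneg (ψ q v))
      have b5 : θ / 2 ≤ |ψ q v| := by nlinarith
      by_contra b6
      nlinarith [mul_le_mul_of_nonneg_left b5 (abs_nonneg ((fr R M w).τ s - (fr R M w).τ s₁))]
    · exact ⟨0, fun s hs => absurd ⟨s, hs⟩ h⟩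
  obtain ⟨c, a1⟩ := a1
  refine (cnt_mono (Q := fun s => |(fr R M w).τ s - (fr R M w).τ i| ≤ η ∨
    |(fr R M w).τ s - c| ≤ η) fun s hs => ?_).trans ((cnt_or _ _).trans (by
      linarith [tau_cnt (w := w) c hη, tau_cnt (w := w) ((fr R M w).τ i) hη]))
  refine or_iff_not_imp_left.2 fun b1 => a1 s ?_
  have b2 := abs_le.1 (h1 s (not_le.1 b1))
  have b3 := abs_le.1 (not_lt.1 fun h => hs ⟨h2.1, h⟩)
  exact abs_le.2 ⟨by linarith, by linarith⟩

theorem deepB {ψ : Bs M → X →L[ℝ] ℝ} {b θ B r γ : ℝ} {j : ℕ} (hw : 0 < w) (hb : 1 ≤ b) (hθ : 0 < θ)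
    (hR : 0 < R) (hM : 1 ≤ M) (hγ0 : 0 ≤ γ) (hγ : γ ≤ 2) (hr0 : 0 ≤ r) (hr : r * (R * M) ≤ 1)
    (h4 : ((2 * j : ℕ) * M + (2 * j : ℕ) * R : ℝ) ≤ (γ / 2) ^ (2 * j) * R * M)
    (h7 : (B * (2 * (j * M ^ j) * (2 * j) ^ (2 * j)) : ℝ) <
      θ ^ 2 * ((γ / 2) ^ (2 * j) * M ^ (2 * j))) (hρ : 2 * r / w ≤ 1)
    (h8 : (((2 * j : ℕ) + 1) * R ^ (2 * j) : ℝ) ^ (2 * j) *
      (4 * M ^ 2 * (2 * r / w) * (2 * (2 * b / w) + 2)) ^ j < 1) {y : X}
    (hy : ∀ S : Finset (Fin M × Bs M), (∀ z ∈ S, ∀ z' ∈ S, z ≠ z' → ∃ d, r ≤ |z.2 d - z'.2 d|) →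
      ∑ z ∈ S, ψ z.2 y ^ 2 ≤ B) (σ : Bool) (i : Fin R × Fin M) {p : Bs M}
    (hp : ∀ z, |p (some z)| ≤ b) :
    ¬ (fr R M w).Tr (Lf ψ b θ y) (γ * R * M) (2 * j) σ i p := by
  set t₀ := p none - (fr R M w).τ i
  obtain ⟨S, a1, a2, a3⟩ := net (fun z : Fin M × Bs M =>
      (∃ ρ, z.2 none = t₀ + (fr R M w).τ (ρ, z.1)) ∧ Lf ψ b θ y z.2)
    (fun z z' => ∃ d, r ≤ |z.2 d - z'.2 d|) (fun z z' ⟨d, h⟩ => ⟨d, by rwa [abs_sub_comm]⟩)
    (N := B) (pow_pos hθ 2) fun S b1 b2 => le_trans (by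
      rw [← nsmul_eq_mul]
      exact card_nsmul_le_sum _ _ _ fun z hz =>
        sq_le_sq.2 ((abs_of_pos hθ).trans_le (b1 z hz).2.2.le)) (hy S b2)
  refine (fr R M w).no_tree (Xi R M w t₀) hR hM hγ0 hγ tau_sub tau_per (Xi_E hw t₀) h4 S
    (by positivity) (by positivity) hρ (fun s hs => Xi_le hw t₀ fun z => ((a1 s hs).2.1 z).le)
    (fun i' q b1 b2 => ?_) ?_ h8 (sub_add_cancel _ _).symm (Xi_le hw t₀ hp)
  · obtain ⟨s, c1, c2⟩ := a3 (i'.2, q) ⟨⟨i'.1, b1⟩, b2⟩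
    refine ⟨s, c1, ?_⟩
    rcases c2 with rfl | c2
    · exact ⟨rfl, Xi_le hw t₀ fun z => by simpa using hr0⟩
    push Not at c2
    refine ⟨?_, Xi_le hw t₀ fun z => (c2 _).le⟩
    obtain ⟨ρ, c3⟩ := (a1 s c1).1
    by_contra c4
    have c5 := tau_sep (w := w) (i := i') (i' := (ρ, s.1)) fun e => c4 (congrArg Prod.snd e).symm
    have c6 : |q none - s.2 none| < r := c2 none
    rw [c3, show q none = _ from b1, add_sub_add_left_eq_sub] at c6
    nlinarith [gpos i]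
  · refine lt_of_mul_lt_mul_left (lt_of_le_of_lt ?_ h7) (sq_nonneg θ)
    calc _ = S.card * θ ^ 2 * (2 * (j * M ^ j) * (2 * j) ^ (2 * j)) := by ring
      _ ≤ _ := by gcongr

theorem coreB {ψ : Bs M → X →L[ℝ] ℝ} (hψ : Continuous ψ) (crd : X →L[ℝ] Bs M) {T : X → X}
    (hT : Continuous T) {K : Bs M → Bs M → ℝ} {b η r e w₂ : ℝ} {j : ℕ} (hw₂ : 0 < w₂)
    (hη0 : 0 < η) (hη1 : η ≤ 1) (hη : 1 ≤ η * (R * M)) (hr : r ≤ η) (he : 2 ^ j * (6 * η) ≤ e)
    (hc : ∀ x d, |crd x d| ≤ ‖x‖) (k1 : ∀ q, (∀ d, |q d| ≤ b) → 3 / 4 ≤ K q q)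
    (k2 : ∀ p q d, r ≤ |p d - q d| → |K p q| ≤ (η / 8) ^ j / 4)
    (t1 : ∀ x, crd (T x) = crd x + (fr R M w).E (crd x none))
    (t2 : ∀ x q, ψ q (T x) = ψ q x + w₂ * K (crd x) q)
    (hd : ∀ y : X, ‖y‖ ≤ b → ∀ σ i (p : Bs M), (∀ z, |p (some z)| ≤ b) →
      ¬ (fr R M w).Tr (Lf ψ b ((η / 8) ^ j * (w₂ / 4)) y) (e / 2 ^ j * R * M) j σ i p) :
    ∃ Bad : Bool → Fin R × Fin M → Set X, (∀ σ i, @MeasurableSet X (borel X) (Bad σ i)) ∧
      (∀ σ (x : Fin R × Fin M → X) (y v : X), crd v none = 1 →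
        (∀ s, cf T σ (x s) = y + (fr R M w).τ s • v) →
        cnt (fun s => x s ∈ Bad σ s) ≤ j * (e * (R * M))) ∧
      ∀ i x, ‖x‖ < b → ‖T x‖ ≤ b → x ∈ Bad false i ∪ Bad true i := by
  let Ld : Bool → ℕ → Fin R × Fin M → X → Prop := fun σ n i x =>
    (fr R M w).Tr (Lf ψ b ((η / 8) ^ n * (w₂ / 4)) (cf T σ x)) (e / 2 ^ n * R * M) n (!σ) i
      (crd x)
  have a1 : ∀ σ, Continuous (cf T σ) := fun σ => by
    cases σ
    exacts [continuous_id, hT]
  have a2 : ∀ σ n i, IsOpen {x | Ld σ n i x} := fun σ n i =>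
    (fr R M w).isOpen_tr (Leaf := fun x => Lf ψ b _ (cf T σ x)) (by
      have := a1 σ
      simp only [Lf, Set.setOf_and, Set.setOf_forall]
      exact (isOpen_iInter_of_finite fun z => isOpen_lt (by fun_prop) continuous_const).inter
        (isOpen_lt continuous_const (by fun_prop))) _ _ _ _ _ crd.continuous
  have a3 : ∀ σ x, crd (cf T σ x) = crd x + sg σ • (fr R M w).E (crd x none) := fun σ x => by
    cases σ <;> simp [cf, sg, t1]
  have a4 : ∀ σ x q, ψ q (cf T σ x) = ψ q x + sg σ * (w₂ * K (crd x) q) :=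
    fun σ x q => by cases σ <;> simp [cf, sg, t2]
  have he0 : 0 ≤ e := le_trans (by positivity) he
  refine ⟨fun σ i => {x | ∃ n < j, Ld σ n i x ∧ ¬ Ld (!σ) (n + 1) i x}, fun σ i => ?_,
    fun σ x y v b1 b2 => cnt_ex _ _ fun n hn => ?_, fun i x b1 b2 => ?_⟩
  · letI := borel X
    haveI : BorelSpace X := ⟨rfl⟩
    simp only [Set.setOf_exists, Set.setOf_and]
    exact .iUnion fun n => (MeasurableSet.const _).inter
      ((a2 _ _ _).measurableSet.inter (a2 (!σ) (n + 1) i).measurableSet.compl)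
  · have c1 : ∀ s, crd (x s) + sg σ • (fr R M w).E (crd (x s) none) =
        crd y + (fr R M w).τ s • crd v := fun s => by rw [← a3, b2, map_add, map_smul]
    have c2 : ∀ s, crd (x s) none = crd y none + (fr R M w).τ s := fun s => by
      simpa [b1, fr] using congrFun (c1 s) none
    have c3 := (fr R M w).transfer (β := 6 * η * (R * M)) (g₀ := e * (R * M)) (r := n) (σ := σ)
      (g := e / 2 ^ n * R * M) (t₀ := crd y none) (p := fun s => crd (x s)) (a := crd v)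
      (Leaf := fun s => Lf ψ b ((η / 8) ^ n * (w₂ / 4)) (cf T σ (x s)))
      (Leaf' := fun s => Lf ψ b (η / 8 * ((η / 8) ^ n * (w₂ / 4))) (cf T (!σ) (x s)))
      (by positivity) (by
        rw [mul_assoc]
        gcongr
        exact div_le_self he0 (one_le_pow₀ one_le_two))
      (fun s' q i d1 d2 => fewB (w := w) (i := i) (by positivity) hη1 hη (fun s d3 => by
        have d4 := k2 (crd (x s)) q none
        rw [c2, show q none = _ from d1, add_sub_add_left_eq_sub] at d4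
        have d5 := (d4 (by linarith)).trans
          (div_le_div_of_nonneg_right (pow_le_pow_of_le_one (by positivity) (by linarith)
          (Nat.succ_le_of_lt hn)) (by norm_num))
        rw [← b2, a4, a4, add_sub_add_left_eq_sub, ← sub_mul, abs_mul, abs_mul, abs_of_pos hw₂,
          show |sg (!σ) - sg σ| = 1 by cases σ <;> simp [sg], one_mul]
        rw [pow_succ] at d5
        nlinarith) (b2 s' ▸ d2))
      (by
        rw [← mul_assoc]
        gcongr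
        exact le_trans (by gcongr; exacts [one_le_two, hn]) he) b1 c2 fun s s' => by
        rw [Fr.ch, show (fr R M w).t (crd (x s)) = crd (x s) none from rfl, c2 s,
          add_assoc (crd y none), add_sub_cancel, ← c2 s, ← c2 s']
        linear_combination (norm := module) c1 s - c1 s'
    refine (cnt_mono fun s hs => ⟨hs.1, fun h => hs.2 ?_⟩).trans c3
    simp only [Ld, Bool.not_not]
    convert h using 2 <;> ring
  · by_contra c0
    have c1 : ∀ n ≤ j, ∃ σ, Ld σ n i x := fun n hn => by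
      induction n with
      | zero =>
        have d1 : ∀ z, |crd x (some z)| < b := fun z => (hc x _).trans_lt b1
        have d2 := t2 x (crd x)
        have d4 := mul_le_mul_of_nonneg_left (k1 (crd x) fun d => (hc x d).trans b1.le) hw₂.le
        by_cases d3 : w₂ / 4 < |ψ (crd x) x|
        · exact ⟨false, d1, by simpa [cf] using d3⟩
        · refine ⟨true, d1, ?_⟩
          simp only [cf, if_true, pow_zero, one_mul, d2]
          exact lt_of_lt_of_le (by linarith [abs_le.1 (not_lt.1 d3)]) (le_abs_self _)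
      | succ n ih =>
        obtain ⟨σ, d1⟩ := ih (by omega)
        refine ⟨!σ, not_not.1 fun d2 => c0 ?_⟩
        cases σ
        exacts [Or.inl ⟨n, hn, d1, d2⟩, Or.inr ⟨n, hn, d1, d2⟩]
    obtain ⟨σ, c2⟩ := c1 j le_rfl
    refine hd _ ?_ _ _ _ (fun z => (hc x _).trans b1.le) c2
    cases σ
    exacts [b1.le, b2]

end Pool.Agent.Lib.MP_5ea425_an.Smooth
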