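import Pool.Agent.Lib.MP_5ea425_an.Sharp.Orth

/-!
Trigonometric sums with orthonormal coefficients, their kernels, and nets of loaded points.
-/

set_option autoImplicit false

open Finset Real
open scoped RealInnerProductSpace ContDiff

namespace Pool.Agent.Lib.MP_5ea425_an.Smooth

/-- Cosine or sine. -/
noncomputable def trig (β : Bool) : ℝ → ℝ := if β then sin else cos

theorem trig_smooth (β : Bool) : ContDiff ℝ ∞ (trig β) := by
  cases β
  exacts [contDiff_cos, contDiff_sin]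

theorem abs_trig (β : Bool) (x : ℝ) : |trig β x| ≤ 1 := by
  cases β
  exacts [abs_cos_le_one x, abs_sin_le_one x]

theorem trig_sum (x y : ℝ) : ∑ β, trig β x * trig β y = cos (x - y) := by
  simp [trig, cos_sub, add_comm]

variable {H : Type*} [NormedAddCommGroup H] [InnerProductSpace ℝ H] {I : Type*} [Fintype I]

/-- A trigonometric sum. -/
noncomputable def Psi (f : I × Bool → H) (θ : I → ℝ) : H := ∑ p, trig p.2 (θ p.1) • f p

theorem inner_Psi {f : I × Bool → H} (hf : Orthonormal ℝ f) (θ θ' : I → ℝ) :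
    ⟪Psi f θ, Psi f θ'⟫ = ∑ i, cos (θ i - θ' i) := by
  rw [Psi, Psi, hf.inner_sum, Fintype.sum_prod_type]
  exact sum_congr rfl fun i _ => trig_sum _ _

theorem inner_Psi_zero {f : I × Bool → H} {w : H} (h : ∀ p, ⟪w, f p⟫ = 0) (θ : I → ℝ) :
    ⟪w, Psi f θ⟫ = 0 := by
  simp [Psi, inner_sum, inner_smul_right, h]

variable {E : Type*} [NormedAddCommGroup E] [NormedSpace ℝ E]

theorem Psi_smooth (f : I × Bool → H) (ℓ : I → E →L[ℝ] ℝ) :
    ContDiff ℝ ∞ fun x => Psi f fun i => ℓ i x :=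
  ContDiff.sum fun p _ => ((trig_smooth p.2).comp (ℓ p.1).contDiff).smul contDiff_const

theorem Psi_bound {f : I × Bool → H} (hf : Orthonormal ℝ f) {ℓ : I → E →L[ℝ] ℝ} {Λ : ℝ}
    (hΛ : 1 ≤ Λ) (h : ∀ i, ‖ℓ i‖ ≤ Λ) {k i : ℕ} (hi : i ≤ k) (w : ℝ) (x : E) :
    ‖iteratedFDeriv ℝ i (fun x => w • Psi f fun i => ℓ i x) x‖ ≤
      |w| * (√(2 * Fintype.card I) * Λ ^ k) := by
  have a0 : ∀ p : I × Bool, ContDiff ℝ i (trig p.2 ∘ ℓ p.1) := fun p =>
    ((trig_smooth p.2).comp (ℓ p.1).contDiff).of_le (mod_cast le_top)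
  rw [iteratedFDeriv_const_smul_apply' ((Psi_smooth f ℓ).of_le (mod_cast le_top)).contDiffAt,
    norm_smul]
  refine mul_le_mul_of_nonneg_left (Sharp.orth_bound univ
    (W := fun p x => trig p.2 (ℓ p.1 x) • f p) (fun p => (a0 p).smul contDiff_const)
    (fun p p' hp c c' => by simp [inner_smul_left, inner_smul_right, hf.2 hp]) (by positivity)
    (sqrt_nonneg _) (by rw [sq_sqrt (by positivity)]; simp [mul_comm]) x fun p => ?_)
    (abs_nonneg _)
  refine (((ContinuousLinearMap.id ℝ ℝ).smulRight (f p)).norm_iteratedFDeriv_comp_left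
    (a0 p).contDiffAt le_rfl).trans ?_
  rw [ContinuousLinearMap.norm_smulRight_apply, hf.1, ContinuousLinearMap.norm_id, one_mul, one_mul,
    (ℓ p.1).iteratedFDeriv_comp_right (trig_smooth p.2) x (mod_cast le_top)]
  refine (ContinuousMultilinearMap.norm_compContinuousLinearMap_le _ _).trans ?_
  rw [norm_iteratedFDeriv_eq_norm_iteratedDeriv, prod_const, card_univ, Fintype.card_fin,
    ← one_mul (Λ ^ k)]
  refine mul_le_mul ?_ ((pow_le_pow_left₀ (norm_nonneg _) (h _) i).trans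
    (pow_le_pow_right₀ hΛ hi)) (by positivity) zero_le_one
  obtain ⟨_, β⟩ := p
  cases β
  exacts [abs_iteratedDeriv_cos_le_one _ _, abs_iteratedDeriv_sin_le_one _ _]

theorem sum_cos_sign [DecidableEq I] (θ : I → ℝ) :
    ∑ ξ : I → Bool, cos (∑ d, (if ξ d then 1 else -1) * θ d) = ∏ d, 2 * cos (θ d) := by
  have h := prod_univ_sum (fun _ : I => (univ : Finset Bool))
    fun d β => Complex.exp (((if β then 1 else -1) * θ d : ℝ) * Complex.I)
  rw [Fintype.piFinset_univ] at h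
  have h1 : ∀ d, ∑ β : Bool, Complex.exp (((if β then 1 else -1) * θ d : ℝ) * Complex.I) =
      (2 * cos (θ d) : ℝ) := fun d => by simp [Complex.two_cos]
  simp only [h1, ← Complex.exp_sum, ← sum_mul, ← Complex.ofReal_sum, ← Complex.ofReal_prod] at h
  simpa only [Complex.ofReal_re, Complex.re_sum, Complex.exp_ofReal_mul_I_re] using
    (congrArg Complex.re h).symm

theorem sum_cos_root {M : ℕ} (c c' : Fin M) :
    ∑ ν : Fin M, cos (2 * π * ν * ((c' - c) / M)) = if c = c' then M else 0 := by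
  split_ifs with h
  · simp [h]
  have hM : M ≠ 0 := c.pos.ne'
  have h1 := Complex.isPrimitiveRoot_exp M hM
  set ζ := Complex.exp (2 * π * Complex.I / M) ^ ((c' : ℤ) - c) with hζ
  have h2 : ζ ≠ 1 := fun e => h (Fin.ext (by
    have := Int.eq_zero_of_abs_lt_dvd ((h1.zpow_eq_one_iff_dvd _).1 e) (abs_lt.2 ⟨by omega, by omega⟩)
    omega))
  have h3 : ∑ ν ∈ range M, ζ ^ ν = 0 := by
    rw [geom_sum_eq h2, hζ, ← zpow_natCast, ← zpow_mul, mul_comm _ (M : ℤ), zpow_mul, zpow_natCast,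
      h1.pow_eq_one, one_zpow, sub_self, zero_div]
  have h4 := congrArg Complex.re h3
  rw [Complex.re_sum, ← Fin.sum_univ_eq_sum_range (fun ν => (ζ ^ ν).re)] at h4
  refine (sum_congr rfl fun ν _ => ?_).trans (h4.trans (by simp))
  rw [← Complex.exp_ofReal_mul_I_re, hζ, ← Complex.exp_int_mul, ← Complex.exp_nat_mul]
  congr 2
  push_cast
  ring

theorem kernel_le {D : Type*} [Fintype D] (m : ℕ) (θ : D → ℝ) {d : D} {r : ℝ} (hr : 0 ≤ r)
    (h1 : r ≤ |θ d|) (h2 : |θ d| ≤ 1) :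
    |∏ z : D × Fin m, cos (θ z.1)| ≤ exp (-(m * (r ^ 2 / 5))) := by
  classical
  have a1 : |cos (θ d)| ≤ exp (-(r ^ 2 / 5)) := by
    have b1 := abs_le.1 h2
    rw [abs_of_nonneg (cos_nonneg_of_mem_Icc ⟨by linarith [pi_gt_three], by linarith [pi_gt_three]⟩)]
    refine (cos_le_one_sub_mul_cos_sq (by linarith [pi_gt_three])).trans
      (le_trans ?_ (add_one_le_exp _))
    have b2 : r ^ 2 ≤ θ d ^ 2 := sq_le_sq.2 (by rwa [abs_of_nonneg hr])
    have b3 : 1 / 5 ≤ 2 / π ^ 2 := by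
      rw [div_le_div_iff₀ (by norm_num) (by positivity)]
      nlinarith [pi_lt_d2, pi_pos]
    nlinarith [sq_nonneg r]
  rw [Fintype.prod_prod_type, abs_prod, ← mul_prod_erase _ _ (mem_univ d), ← mul_neg, exp_nat_mul,
    ← mul_one (_ ^ m)]
  refine mul_le_mul ?_ (prod_le_one (fun _ _ => abs_nonneg _) fun d' _ => ?_)
    (prod_nonneg fun _ _ => abs_nonneg _) (by positivity)
  · simpa [abs_pow] using pow_le_pow_left₀ (abs_nonneg _) a1 m
  · simpa [abs_pow] using pow_le_one₀ (abs_nonneg _) (abs_cos_le_one _)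

theorem gram {α : Type*} (S : Finset α) (φ : α → H) {y : H} {b θ κ : ℝ} (hy : ‖y‖ ≤ b) (hθ : 0 ≤ θ)
    (hκ0 : 0 ≤ κ) (hκ : 2 * b ^ 2 * κ ≤ θ ^ 2) (h1 : ∀ z, ⟪φ z, φ z⟫ = 1)
    (h2 : ∀ z ∈ S, ∀ z' ∈ S, z ≠ z' → |⟪φ z, φ z'⟫| ≤ κ) (h3 : ∀ z ∈ S, θ < |⟪y, φ z⟫|) :
    S.card * θ ^ 2 ≤ 2 * b ^ 2 := by
  classical
  rcases (Nat.cast_nonneg (α := ℝ) S.card).eq_or_lt with h0 | h0
  · rw [← h0, zero_mul]
    positivity
  let s : α → ℝ := fun z => if 0 ≤ ⟪y, φ z⟫ then 1 else -1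
  have a0 : ∀ z, |s z| = 1 := fun z => by
    simp only [s]
    split_ifs <;> simp
  have a1 : S.card * θ ≤ b * ‖∑ z ∈ S, s z • φ z‖ := by
    refine le_trans ?_ ((real_inner_le_norm y _).trans (by gcongr))
    rw [inner_sum, ← nsmul_eq_mul]
    refine card_nsmul_le_sum _ _ _ fun z hz => (h3 z hz).le.trans_eq ?_
    simp only [s, inner_smul_right]
    split_ifs with h
    · rw [abs_of_nonneg h, one_mul]
    · rw [abs_of_neg (not_le.1 h), neg_one_mul]
  have a2 : ‖∑ z ∈ S, s z • φ z‖ ^ 2 ≤ S.card * (1 + S.card * κ) := by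
    rw [← real_inner_self_eq_norm_sq, sum_inner, ← nsmul_eq_mul]
    refine sum_le_card_nsmul _ _ _ fun z hz => ?_
    rw [inner_sum]
    refine (sum_le_sum (g := fun z' => (if z = z' then 1 else 0) + κ) fun z' hz' => ?_).trans_eq
      (by simp [sum_add_distrib, hz])
    refine (le_abs_self _).trans ?_
    rw [inner_smul_left, inner_smul_right, abs_mul, abs_mul, conj_trivial, a0, a0, one_mul, one_mul]
    split_ifs with h
    · rw [← h, h1, abs_one]
      linarith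
    · linarith [h2 z hz z' hz' h]
  have a3 := pow_le_pow_left₀ (by positivity) a1 2
  rw [mul_pow, mul_pow] at a3
  have a4 := a3.trans (mul_le_mul_of_nonneg_left a2 (sq_nonneg b))
  refine le_of_mul_le_mul_left ?_ h0
  nlinarith [mul_le_mul_of_nonneg_left hκ (sq_nonneg (S.card : ℝ))]

theorem net {α : Type*} (Z : α → Prop) (far : α → α → Prop) (hs : ∀ z z', far z z' → far z' z)
    {N c : ℝ} (hc : 0 < c) (h : ∀ S : Finset α, (∀ z ∈ S, Z z) →
      (∀ z ∈ S, ∀ z' ∈ S, z ≠ z' → far z z') → S.card * c ≤ N) :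
    ∃ S : Finset α, (∀ z ∈ S, Z z) ∧ S.card * c ≤ N ∧ ∀ z, Z z → ∃ s ∈ S, z = s ∨ ¬ far z s := by
  classical
  by_contra hn
  have a1 : ∀ n : ℕ, ∃ S : Finset α, (∀ z ∈ S, Z z) ∧ (∀ z ∈ S, ∀ z' ∈ S, z ≠ z' → far z z') ∧
      S.card = n := fun n => by
    induction n with
    | zero => exact ⟨∅, by simp⟩
    | succ n ih =>
      obtain ⟨S, b1, b2, b3⟩ := ih
      push Not at hn
      obtain ⟨z, c1, c2⟩ := hn S b1 (h S b1 b2)
      refine ⟨insert z S, by simpa [c1] using b1, fun x hx x' hx' e => ?_,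
        by rw [card_insert_of_notMem fun h => (c2 z h).1 rfl, b3]⟩
      rcases mem_insert.1 hx with rfl | d <;> rcases mem_insert.1 hx' with rfl | d'
      exacts [absurd rfl e, (c2 _ d').2, hs _ _ (c2 _ d).2, b2 _ d _ d' e]
  obtain ⟨n, hn'⟩ := exists_nat_gt (N / c)
  obtain ⟨S, b1, b2, rfl⟩ := a1 n
  exact absurd (h S b1 b2) (not_le.2 ((div_lt_iff₀ hc).1 hn'))

end Pool.Agent.Lib.MP_5ea425_an.Smooth
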