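import Pool.Agent.Lib.MP_5ea425_an.Smooth.Poly
import Pool.Agent.Lib.MP_5ea425_an.Smooth.Four

/-!
The frame of one stage: labelled times, a trigonometric curve that visits the unit vectors, and the
splitting of a ball into two sets with few points on each line of the domain and of the range.
-/

set_option autoImplicit false

open Finset Real
open scoped RealInnerProductSpace

namespace Pool.Agent.Lib.MP_5ea425_an.Smooth

/-- The base space. -/
abbrev Bs (M : ℕ) := Option (Fin M × Bool) → ℝ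

/-- The frame. -/
noncomputable def fr (R M : ℕ) (w : ℝ) : Fr (Bs M) (Fin R × Fin M) where
  t := ContinuousLinearMap.proj none
  E s d := d.elim 0 fun p => w * trig p.2 (2 * π * p.1 * R * s)
  τ i := (finProdFinEquiv i : ℕ) / (R * M)
  hE _ := rfl
  cE := continuous_pi fun d => by
    cases d with
    | none => exact continuous_const
    | some p => exact continuous_const.mul ((trig_smooth p.2).continuous.comp (by fun_prop))

variable {R M : ℕ} {w : ℝ}

theorem tau_eq (i : Fin R × Fin M) : (fr R M w).τ i = (i.2 + M * i.1) / (R * M) := by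
  simp [fr]

theorem gpos (i : Fin R × Fin M) : (0 : ℝ) < R * M :=
  mul_pos (Nat.cast_pos.2 i.1.pos) (Nat.cast_pos.2 i.2.pos)

theorem tau_sub (i i' : Fin R × Fin M) : |(fr R M w).τ i - (fr R M w).τ i'| ≤ 1 := by
  have h : ∀ i : Fin R × Fin M, 0 ≤ (fr R M w).τ i ∧ (fr R M w).τ i ≤ 1 := fun i =>
    ⟨div_nonneg (Nat.cast_nonneg _) (gpos i).le, (div_le_one (gpos i)).2
      (by exact_mod_cast (finProdFinEquiv i).2.le)⟩
  exact abs_le.2 ⟨by linarith [h i, h i'], by linarith [h i, h i']⟩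

theorem nat_sep {a b : ℕ} (h : a ≠ b) : 1 ≤ |(a : ℝ) - b| := by
  exact_mod_cast Int.one_le_abs (sub_ne_zero.2 (Nat.cast_injective.ne h) : (a : ℤ) - b ≠ 0)

theorem tau_sep {i i' : Fin R × Fin M} (h : i ≠ i') :
    1 ≤ R * M * |(fr R M w).τ i - (fr R M w).τ i'| := by
  simp only [fr]
  rw [← sub_div, abs_div, abs_of_pos (gpos i), mul_div_cancel₀ _ (gpos i).ne']
  exact nat_sep (Fin.val_injective.ne (finProdFinEquiv.injective.ne h))

theorem tau_per (ρ ρ' : Fin R) (c : Fin M) (h : ρ ≠ ρ') :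
    1 ≤ R * |(fr R M w).τ (ρ, c) - (fr R M w).τ (ρ', c)| := by
  have h1 : (0 : ℝ) < R := Nat.cast_pos.2 ρ.pos
  have h2 : (0 : ℝ) < M := Nat.cast_pos.2 c.pos
  rw [tau_eq, tau_eq, show ((c : ℝ) + M * ρ) / (R * M) - (c + M * ρ') / (R * M) = (ρ - ρ') / R by
    field_simp; ring, abs_div, abs_of_pos h1, mul_div_cancel₀ _ h1.ne']
  exact nat_sep (Fin.val_injective.ne h)

theorem tau_cnt (c : ℝ) {η : ℝ} (h : 1 ≤ η * (R * M)) :
    cnt (fun s => |(fr R M w).τ s - c| ≤ η) ≤ 3 * η * (R * M) := by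
  classical
  have h1 := card_le_card_of_injOn (fun s : Fin R × Fin M => ((finProdFinEquiv s : ℕ) : ℤ))
    (s := univ.filter fun s => |(fr R M w).τ s - c| ≤ η)
    (t := Icc ⌈(c - η) * (R * M)⌉ ⌊(c + η) * (R * M)⌋) (fun s hs => by
      have a1 := abs_le.1 (mem_filter.1 hs).2
      simp only [fr] at a1
      rw [coe_Icc, Set.mem_Icc, Int.ceil_le, Int.le_floor, Int.cast_natCast, ← le_div_iff₀ (gpos s),
        ← div_le_iff₀ (gpos s)]
      exact ⟨by linarith, by linarith⟩)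
    fun s _ s' _ e => finProdFinEquiv.injective (Fin.val_injective (Nat.cast_injective e))
  rw [Int.card_Icc] at h1
  have h2 : ((⌊(c + η) * (R * M)⌋ + 1 - ⌈(c - η) * (R * M)⌉).toNat : ℝ) ≤ 3 * η * (R * M) := by
    rw [← Int.cast_natCast, Int.toNat_eq_max]
    push_cast
    exact max_le (by linarith [Int.floor_le ((c + η) * (R * M)), Int.le_ceil ((c - η) * (R * M))])
      (by linarith)
  refine le_trans ?_ ((Nat.cast_le.2 h1).trans h2)
  unfold cnt
  exact le_of_eq (by congr)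

theorem tau_onto (h : (0 : ℝ) < R * M) (x : ℝ) :
    ∃ i, x - (fr R M w).τ i ∈ Set.Ico (⌊x⌋ : ℝ) (⌊x⌋ + (R * M : ℝ)⁻¹) := by
  have h1 : 0 ≤ Int.fract x * (R * M) := mul_nonneg (Int.fract_nonneg x) h.le
  have h2 : ⌊Int.fract x * (R * M)⌋₊ < R * M := (Nat.floor_lt h1).2 (by
    push_cast
    nlinarith [Int.fract_lt_one x])
  refine ⟨finProdFinEquiv.symm ⟨_, h2⟩, ?_⟩
  simp only [fr, Equiv.apply_symm_apply]
  have h3 := (div_le_iff₀ h).2 (Nat.floor_le h1)
  have h4 := (lt_div_iff₀ h).2 (Nat.lt_floor_add_one (Int.fract x * (R * M)))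
  rw [add_div, one_div] at h4
  exact ⟨by linarith [Int.floor_add_fract x], by linarith [Int.floor_add_fract x]⟩

/-- The reading of the curve. -/
noncomputable def Xi (R M : ℕ) (w t₀ : ℝ) : Bs M →ₗ[ℝ] Fin M → ℝ :=
  LinearMap.pi fun c => ∑ z : Fin M × Bool,
    ((M * w)⁻¹ * trig z.2 (2 * π * z.1 * R * (t₀ + c / (R * M)))) • LinearMap.proj (some z)

theorem Xi_E (hw : 0 < w) (t₀ : ℝ) (i : Fin R × Fin M) :
    Xi R M w t₀ ((fr R M w).E (t₀ + (fr R M w).τ i)) = Pi.single i.2 1 := by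
  ext c
  have h1 : (0 : ℝ) < R := Nat.cast_pos.2 i.1.pos
  have h2 : (0 : ℝ) < M := Nat.cast_pos.2 c.pos
  have h3 : ∀ ν : Fin M, ∑ β, (M * w)⁻¹ * trig β (2 * π * ν * R * (t₀ + c / (R * M))) *
      (w * trig β (2 * π * ν * R * (t₀ + (fr R M w).τ i))) =
      (M : ℝ)⁻¹ * cos (2 * π * ν * ((c - i.2) / M)) := fun ν => by
    rw [← cos_add_nat_mul_two_pi (2 * π * ν * ((c - i.2) / M)) 0,
      ← cos_sub_nat_mul_two_pi _ (ν * i.1), show 2 * π * ν * ((c - i.2) / M) + (0 : ℕ) * (2 * π) -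
      (ν * i.1 : ℕ) * (2 * π) = 2 * π * ν * R * (t₀ + c / (R * M)) -
        2 * π * ν * R * (t₀ + (fr R M w).τ i) by
      rw [tau_eq]
      push_cast
      field_simp
      ring, ← trig_sum, mul_sum]
    exact sum_congr rfl fun β _ => by field_simp
  simp only [Xi, LinearMap.pi_apply, LinearMap.sum_apply, LinearMap.smul_apply,
    LinearMap.proj_apply, smul_eq_mul, Fintype.sum_prod_type]
  refine (sum_congr rfl fun ν _ => h3 ν).trans ?_
  rw [← mul_sum, sum_cos_root, Pi.single_apply]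
  by_cases h : c = i.2
  · simp [h, h2.ne']
  · simp [h, Ne.symm h]

theorem Xi_le (hw : 0 < w) (t₀ : ℝ) {p : Bs M} {β : ℝ} (h : ∀ z, |p (some z)| ≤ β) (c : Fin M) :
    |Xi R M w t₀ p c| ≤ 2 * β / w := by
  have h2 : (0 : ℝ) < M := Nat.cast_pos.2 c.pos
  simp only [Xi, LinearMap.pi_apply, LinearMap.sum_apply, LinearMap.smul_apply,
    LinearMap.proj_apply, smul_eq_mul]
  refine (abs_sum_le_sum_abs _ _).trans ((sum_le_card_nsmul _ _ ((M * w)⁻¹ * 1 * β)
    fun z _ => ?_).trans_eq ?_)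
  · rw [abs_mul, abs_mul, abs_of_pos (a := (M * w)⁻¹) (by positivity)]
    gcongr
    exacts [abs_trig _ _, h z]
  · simp
    field_simp

end Pool.Agent.Lib.MP_5ea425_an.Smooth
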