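import Pool.Agent.Lib.MP_5ea425_an.Smooth.Stage
import Pool.Agent.Lib.MP_5ea425_an.Null

/-!
The sum of all stages.
-/

set_option autoImplicit false

open MeasureTheory Filter
open scoped RealInnerProductSpace ContDiff

namespace Pool.Agent.Lib.MP_5ea425_an.Smooth

theorem sum_stage {X : Type*} [NormedAddCommGroup X] [NormedSpace ℝ X] [CompleteSpace X]
    {u : ℕ → X → X} {k : ℕ} {δ : ℝ} (h1 : ∀ l, ContDiff ℝ ∞ (u l))
    (h2 : ∀ l, ∀ i ≤ k + l, ∀ x, ‖iteratedFDeriv ℝ i (u l) x‖ ≤ δ / 2 / 2 ^ l) :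
    ContDiff ℝ ∞ (fun x => ∑' l, u l x) ∧ (∀ x, Summable fun l => u l x) ∧
      ∀ i ≤ k, ∀ x, ‖iteratedFDeriv ℝ i (fun x => ∑' l, u l x) x‖ ≤ δ := by
  have a1 := hasSum_geometric_two' δ
  refine ⟨contDiff_tsum_of_eventually h1 (fun _ _ => a1.summable) fun i _ => ?_,
    fun x => .of_norm_bounded a1.summable fun l => ?_, fun i hi x => ?_⟩
  · rw [Nat.cofinite_eq_atTop]
    exact (eventually_ge_atTop i).mono fun l hl => h2 l i (by omega)
  · simpa using h2 l 0 (by omega) x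
  · rw [iteratedFDeriv_tsum_apply (N := k) (fun l => (h1 l).of_le (mod_cast le_top))
      (fun _ _ => a1.summable) (fun i l x hi => h2 l i (le_add_right (mod_cast hi)) x)
      (mod_cast hi)]
    exact tsum_of_norm_bounded a1 fun l => h2 l i (by omega) x

theorem assemble {X : Type*} [NormedAddCommGroup X] [NormedSpace ℝ X] [MeasurableSpace X]
    [BorelSpace X] (π : X →L[ℝ] ℝ) (T : X ≃ X) (hT : Continuous T.symm) {δ : ℝ} (hδ : 0 ≤ δ)
    {E : ℕ → ℤ → Bool → Set X} (h1 : ∀ l n σ, MeasurableSet (E l n σ))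
    (h2 : ∀ l n y v, π y = 0 → π v = 1 →
      volume {c : ℝ | y + c • v ∈ E l n false} ≤ ENNReal.ofReal (δ / 2 / 2 ^ l) ∧
      volume {c : ℝ | T.symm (y + c • v) ∈ E l n true} ≤ ENNReal.ofReal (δ / 2 / 2 ^ l))
    (h3 : ∀ (l : ℕ) x, ‖x‖ < (l : ℝ) + 1 → ‖T x‖ ≤ (l : ℝ) + 1 →
      x ∈ E l ⌊π x⌋ false ∪ E l ⌊π x⌋ true) :
    ∃ A : Set X, MeasurableSet A ∧ MeasurableSet (T '' A)ᶜ ∧ ∀ y v, π y = 0 → π v = 1 →
      volume {c : ℝ | y + c • v ∈ A} = 0 ∧ volume {c : ℝ | y + c • v ∈ (T '' A)ᶜ} = 0 := by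
  have a1 : ∀ P : ℕ → ℤ → ℝ → Prop, (∀ l n, volume {c | P l n c} ≤
      ENNReal.ofReal (δ / 2 / 2 ^ l)) → volume {c | ∃ n, ∃ᶠ l in atTop, P l n c} = 0 := fun P h => by
    rw [Set.setOf_exists]
    refine measure_iUnion_null fun n => measure_setOf_frequently_eq_zero (ne_top_of_le_ne_top ?_
      (ENNReal.tsum_le_tsum fun l => h l n))
    rw [← ENNReal.ofReal_tsum_of_nonneg (fun l => by positivity) (hasSum_geometric_two' δ).summable]
    exact ENNReal.ofReal_ne_top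
  have a2 : MeasurableSet {x | ∃ n, ∃ᶠ l in atTop, x ∈ E l n false} := by
    simp only [frequently_atTop, Set.setOf_exists, Set.setOf_forall, Set.setOf_and]
    exact .iUnion fun n => .iInter fun a => .iUnion fun l => (MeasurableSet.const _).inter (h1 _ _ _)
  refine ⟨_, a2, ?_, fun y v b1 b2 => ⟨a1 _ fun l n => (h2 l n y v b1 b2).1,
    measure_mono_null (fun c hc => ?_) (a1 _ fun l n => (h2 l n y v b1 b2).2)⟩⟩
  · rw [Equiv.image_eq_preimage_symm]
    exact (hT.measurable a2).compl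
  rw [Equiv.image_eq_preimage_symm] at hc
  have c1 := not_frequently.1 fun h => hc ⟨⌊π (T.symm (y + c • v))⌋, h⟩
  have c2 := fun C : ℝ => (tendsto_natCast_atTop_atTop (R := ℝ)).eventually_ge_atTop C
  refine ⟨⌊π (T.symm (y + c • v))⌋, Eventually.frequently ?_⟩
  filter_upwards [c1, c2 ‖T.symm (y + c • v)‖, c2 ‖T (T.symm (y + c • v))‖] with l d1 d2 d3
  exact (h3 l _ (by linarith) (by linarith)).resolve_left d1

theorem main {H : Type*} [NormedAddCommGroup H] [InnerProductSpace ℝ H] [CompleteSpace H]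
    [MeasurableSpace H] [BorelSpace H] (hH : ¬ FiniteDimensional ℝ H) (k : ℕ) {δ : ℝ} (hδ : 0 < δ)
    (hδ1 : δ ≤ 1) : ∃ (e : H) (U V : H → H) (T : H ≃ H) (A : Set H), ‖e‖ = 1 ∧ ContDiff ℝ ∞ U ∧
      ContDiff ℝ ∞ V ∧ (∀ i ≤ k, ∀ x, ‖iteratedFDeriv ℝ i U x‖ ≤ δ) ∧
      (∀ i ≤ k, ∀ x, ‖iteratedFDeriv ℝ i V x‖ ≤ δ) ∧ (∀ x, T x = x + U x + V x) ∧
      (∀ z, T.symm z = z - U z - V (z - U z)) ∧ MeasurableSet A ∧ MeasurableSet (T '' A)ᶜ ∧
      ∀ y v, ⟪e, y⟫ = 0 → ⟪e, v⟫ = 1 →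
        volume {c : ℝ | y + c • v ∈ A} = 0 ∧ volume {c : ℝ | y + c • v ∈ (T '' A)ᶜ} = 0 := by
  choose M m hs using fun l : ℕ => stage (H := H) (k + l) (ε := δ / 2 / 2 ^ l) (b := l + 1)
    (by positivity) ((div_le_self (by positivity) (one_le_pow₀ one_le_two)).trans (by linarith))
    (le_add_of_nonneg_left (Nat.cast_nonneg l))
  obtain ⟨F, hF, -⟩ := Sharp.exists_on hH (0 : H →L[ℝ] (Fin 0 → ℝ)) (Option (Σ l, Ix (M l) (m l)))
  choose u w s1 s2 s3 s4 s5 s6 s7 s8 s9 using fun l => hs l (F none) (fun p => F (some ⟨l, p⟩))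
    (hF.1 _) (hF.comp _ fun p q h => by simpa using h)
    fun p => hF.2 (by simp)
  obtain ⟨a1, a2, a3⟩ := sum_stage s1 s3
  obtain ⟨b1, b2, b3⟩ := sum_stage s2 s4
  set U := fun x => ∑' l, u l x with hU
  set V := fun x => ∑' l, w l x with hV
  have a4 : ∀ v x, ⟪v, U x⟫ = ∑' l, ⟪v, u l x⟫ := fun v x => (innerSL ℝ v).map_tsum (a2 x)
  have b4 : ∀ v x, ⟪v, V x⟫ = ∑' l, ⟪v, w l x⟫ := fun v x => (innerSL ℝ v).map_tsum (b2 x)
  have a5 : ∀ x, ⟪F none, U x⟫ = 0 := fun x => by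
    rw [a4, tsum_congr fun l => s7 l _ x fun p => hF.2 (by simp), tsum_zero]
  have b5 : ∀ x, ⟪F none, V x⟫ = 0 := fun x => by
    rw [b4, tsum_congr fun l => s8 l _ x fun p => hF.2 (by simp), tsum_zero]
  have c0 : ∀ {l l' : ℕ} (p : Ix (M l) (m l)) (q : Ix (M l') (m l')), l' ≠ l →
      ⟪F (some ⟨l, p⟩), F (some ⟨l', q⟩)⟫ = 0 := fun p q h =>
    hF.2 fun e => h (congrArg Sigma.fst (Option.some_injective _ e)).symm
  have a6 : ∀ l p x, ⟪F (some ⟨l, p⟩), U x⟫ = ⟪F (some ⟨l, p⟩), u l x⟫ := fun l p x => by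
    rw [a4, tsum_eq_single l fun l' h => s7 l' _ x fun q => c0 p _ h]
  have b6 : ∀ l p x, ⟪F (some ⟨l, p⟩), V x⟫ = ⟪F (some ⟨l, p⟩), w l x⟫ := fun l p x => by
    rw [b4, tsum_eq_single l fun l' h => s8 l' _ x fun q => c0 p _ h]
  have b7 : ∀ l p x, ⟪F (some ⟨l, .inl p⟩), V x⟫ = 0 := fun l p x => by
    rw [b6, s8 l _ x fun q => hF.2 (by simp)]
  have a8 : ∀ x y, ⟪F none, y⟫ = 0 → U (x + y) = U x := fun x y h =>
    tsum_congr fun l => s5 l _ _ (by rw [inner_add_right, h, add_zero])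
  have b8 : ∀ x y (c : ℝ), V (x + c • V y) = V x := fun x y c =>
    tsum_congr fun l => s6 l _ _ (by rw [inner_add_right, inner_smul_right, b5, mul_zero, add_zero])
      fun p => by rw [inner_add_right, inner_smul_right, b7, mul_zero, add_zero]
  let T : H ≃ H :=
    { toFun := fun x => x + U x + V x
      invFun := fun z => z - U z - V (z - U z)
      left_inv := fun x => by
        have d1 := a8 x (U x + V x) (by rw [inner_add_right, a5, b5, add_zero])
        have d2 := b8 x x 1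
        rw [one_smul] at d2
        dsimp only
        rw [add_assoc, d1, show x + (U x + V x) - U x = x + V x by abel, d2, add_sub_cancel_right]
      right_inv := fun z => by
        have d1 := a8 z (-U z - V (z - U z))
          (by rw [inner_sub_right, inner_neg_right, a5, b5, neg_zero, sub_zero])
        have d2 := b8 (z - U z) (z - U z) (-1)
        rw [neg_one_smul, ← sub_eq_add_neg] at d2
        rw [← add_sub_assoc, ← sub_eq_add_neg] at d1
        dsimp only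
        rw [d1, d2]
        abel }
  have t1 : Continuous T := ((contDiff_id.add a1).add b1).continuous
  have t2 : Continuous T.symm := ((contDiff_id.sub a1).sub (b1.comp (contDiff_id.sub a1))).continuous
  choose E e1 e2 e3 using fun l => s9 l T t1 t2
    (fun x => by simp only [T, Equiv.coe_fn_mk, inner_add_right, a5, b5, add_zero])
    fun p x => by simp only [T, Equiv.coe_fn_mk, inner_add_right, a6, b6]
  obtain ⟨A, h⟩ := assemble (innerSL ℝ (F none)) T t2 hδ.le e1 e2 e3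
  exact ⟨F none, U, V, T, A, hF.1 _, a1, b1, a3, b3, fun _ => rfl, fun _ => rfl, h⟩

end Pool.Agent.Lib.MP_5ea425_an.Smooth
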