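import Pool.Agent.Lib.MP_5ea425_an.Smooth.StageB
import Pool.Agent.Lib.MP_5ea425_an.Smooth.Main

/-!
The sum of all stages in a Banach space.
-/

set_option autoImplicit false

open MeasureTheory Filter
open scoped ContDiff

namespace Pool.Agent.Lib.MP_5ea425_an.Smooth

theorem mainB {X : Type*} [NormedAddCommGroup X] [NormedSpace ℝ X] [CompleteSpace X]
    [MeasurableSpace X] [BorelSpace X] (hX : ¬ FiniteDimensional ℝ X) (p₀ : X →L[ℝ] ℝ)
    (hp : ∀ x, |p₀ x| ≤ ‖x‖) (k : ℕ) {δ : ℝ} (hδ : 0 < δ) (hδ1 : δ ≤ 1) :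
    ∃ (U V : X → X) (T : X ≃ X) (A : Set X), ContDiff ℝ ∞ U ∧
      ContDiff ℝ ∞ V ∧ (∀ i ≤ k, ∀ x, ‖iteratedFDeriv ℝ i U x‖ ≤ δ) ∧
      (∀ i ≤ k, ∀ x, ‖iteratedFDeriv ℝ i V x‖ ≤ δ) ∧ (∀ x, T x = x + U x + V x) ∧
      (∀ z, T.symm z = z - U z - V (z - U z)) ∧ MeasurableSet A ∧ MeasurableSet (T '' A)ᶜ ∧
      ∀ y v, p₀ y = 0 → p₀ v = 1 →
        volume {c : ℝ | y + c • v ∈ A} = 0 ∧ volume {c : ℝ | y + c • v ∈ (T '' A)ᶜ} = 0 := by
  classical
  choose Z Γ₀ Γ u w hs using fun (l : ℕ) (s : Finset X × Finset (X →L[ℝ] ℝ)) =>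
    stageB hX p₀ hp (k + l) (ε := δ / 2 / 2 ^ l) (b := l + 1)
    (by positivity) ((div_le_self (by positivity) (one_le_pow₀ one_le_two)).trans (by linarith))
    (le_add_of_nonneg_left (Nat.cast_nonneg l)) s.1 s.2
  let st : ℕ → Finset X × Finset (X →L[ℝ] ℝ) := fun l =>
    Nat.rec (∅, ∅) (fun l s => (s.1 ∪ Z l s, s.2 ∪ Γ l s)) l
  have m1 : Monotone st := monotone_nat_of_le_succ fun l =>
    ⟨Finset.subset_union_left, Finset.subset_union_left⟩
  choose s1 s2 s3 s4 s5 s6 s7 s8 s9 s10 s11 s12 s13 using fun l => hs l (st l)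
  have c0 : ∀ l l', l' ≠ l → ∀ γ ∈ Γ l (st l), ∀ z ∈ Z l' (st l'), γ z = 0 :=
    fun l l' h γ hγ z hz => by
      rcases h.lt_or_gt with h | h
      · exact s6 l γ hγ z ((m1 (Nat.succ_le_of_lt h)).1 (Finset.mem_union_right _ hz))
      · exact s5 l' z hz γ ((m1 (Nat.succ_le_of_lt h)).2 (Finset.mem_union_right _ hγ))
  obtain ⟨a1, a2, a3⟩ := sum_stage s1 s3
  obtain ⟨b1, b2, b3⟩ := sum_stage s2 s4
  set U := fun x => ∑' l, u l (st l) x with hU
  set V := fun x => ∑' l, w l (st l) x with hV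
  have a5 : ∀ x, p₀ (U x) = 0 := fun x => by
    rw [p₀.map_tsum (a2 x), tsum_congr fun l => (s8 l x).1, tsum_zero]
  have b5 : ∀ x, p₀ (V x) = 0 := fun x => by
    rw [p₀.map_tsum (b2 x), tsum_congr fun l => (s8 l x).2, tsum_zero]
  have a6 : ∀ l, ∀ γ ∈ Γ l (st l), ∀ x, γ (U x) = γ (u l (st l) x) := fun l γ hγ x => by
    rw [γ.map_tsum (a2 x), tsum_eq_single l fun l' h => (s9 l' γ (c0 l l' h γ hγ) x).1]
  have b6 : ∀ l, ∀ γ ∈ Γ l (st l), ∀ x, γ (V x) = γ (w l (st l) x) := fun l γ hγ x => by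
    rw [γ.map_tsum (b2 x), tsum_eq_single l fun l' h => (s9 l' γ (c0 l l' h γ hγ) x).2]
  have a8 : ∀ x y, p₀ y = 0 → U (x + y) = U x := fun x y h =>
    tsum_congr fun l => s11 l _ _ (by rw [map_add, h, add_zero])
  have b8 : ∀ x y (c : ℝ), V (x + c • V y) = V x := fun x y c =>
    tsum_congr fun l => s12 l _ _ (by rw [map_add, map_smul, b5, smul_zero, add_zero])
      fun γ hγ => by rw [map_add, map_smul, b6 l γ (s7 l hγ), s10 l γ hγ, smul_zero, add_zero]
  let T : X ≃ X :=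
    { toFun := fun x => x + U x + V x
      invFun := fun z => z - U z - V (z - U z)
      left_inv := fun x => by
        have d1 := a8 x (U x + V x) (by rw [map_add, a5, b5, add_zero])
        have d2 := b8 x x 1
        rw [one_smul] at d2
        dsimp only
        rw [add_assoc, d1, show x + (U x + V x) - U x = x + V x by abel, d2, add_sub_cancel_right]
      right_inv := fun z => by
        have d1 := a8 z (-U z - V (z - U z)) (by rw [map_sub, map_neg, a5, b5, neg_zero, sub_zero])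
        have d2 := b8 (z - U z) (z - U z) (-1)
        rw [neg_one_smul, ← sub_eq_add_neg] at d2
        rw [← add_sub_assoc, ← sub_eq_add_neg] at d1
        dsimp only
        rw [d1, d2]
        abel }
  have t1 : Continuous T := ((contDiff_id.add a1).add b1).continuous
  have t2 : Continuous T.symm := ((contDiff_id.sub a1).sub (b1.comp (contDiff_id.sub a1))).continuous
  choose E e1 e2 e3 using fun l => s13 l T t1 t2
    (fun x => by simp only [T, Equiv.coe_fn_mk, map_add, a5, b5, add_zero])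
    fun γ hγ x => by simp only [T, Equiv.coe_fn_mk, map_add, a6 l γ hγ, b6 l γ hγ]
  obtain ⟨A, h⟩ := assemble p₀ T t2 hδ.le e1 e2 e3
  exact ⟨U, V, T, A, a1, b1, a3, b3, fun _ => rfl, fun _ => rfl, h⟩

end Pool.Agent.Lib.MP_5ea425_an.Smooth
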