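import Mathlib

/-!
The choice of the parameters of one stage.
-/

set_option autoImplicit false

open Real Filter

namespace Pool.Agent.Lib.MP_5ea425_an.Smooth

theorem params (k : ℕ) {ε b : ℝ} (hε : 0 < ε) (hε1 : ε ≤ 1) (hb : 1 ≤ b) :
    ∃ (R M m j : ℕ) (w w₂ r η γ : ℝ), 0 < R ∧ 1 ≤ M ∧ 1 ≤ m ∧ 0 < j ∧ 0 < w ∧ 0 < w₂ ∧ w₂ ≤ 1 ∧
      0 < η ∧ η ≤ 1 ∧ γ = ε / (2 * j : ℕ) / 2 ^ (2 * j) ∧ γ ≤ 2 ∧ 1 ≤ η * (R * M) ∧ 0 ≤ r ∧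
      r * (R * M) ≤ 1 ∧ 2 ^ (2 * j) * (6 * η) ≤ ε / (2 * j : ℕ) ∧
      2 * b ^ 2 * exp (-(m * (((2 * b)⁻¹ * r) ^ 2 / 5))) ≤ ((η / 8) ^ (2 * j) * (w₂ / 4)) ^ 2 ∧
      ((2 * j : ℕ) * M + (2 * j : ℕ) * R : ℝ) ≤ (γ / 2) ^ (2 * j) * R * M ∧
      (2 * b ^ 2 * (2 * (j * M ^ j) * (2 * j) ^ (2 * j)) : ℝ) <
        ((η / 8) ^ (2 * j) * (w₂ / 4)) ^ 2 * ((γ / 2) ^ (2 * j) * M ^ (2 * j)) ∧
      2 * r / w ≤ 1 ∧ (((2 * j : ℕ) + 1) * R ^ (2 * j) : ℝ) ^ (2 * j) *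
        (4 * M ^ 2 * (2 * r / w) * (2 * (2 * b / w) + 2)) ^ j < 1 ∧
      w * (2 * M * (7 * M * R) ^ k) ≤ ε ∧ w₂ * (2 * (3 * M * m) ^ k) ≤ ε := by
  obtain ⟨a, ha⟩ : ∃ a, a = k * (4 * k + 17) + 1 := ⟨_, rfl⟩
  obtain ⟨j, hj⟩ : ∃ j, j = 2 * a + 1 := ⟨_, rfl⟩
  have j0 : 0 < j := by omega
  have j1 : (1 : ℝ) ≤ (2 * j : ℕ) := by exact_mod_cast (by omega)
  have j2 : (1 : ℝ) ≤ 2 ^ (2 * j) := one_le_pow₀ one_le_two
  obtain ⟨γ, hγ⟩ : ∃ γ, γ = ε / (2 * j : ℕ) / 2 ^ (2 * j) := ⟨_, rfl⟩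
  have g0 : 0 < γ := by rw [hγ]; positivity
  have g1 : γ ≤ 1 := by
    rw [hγ]
    exact (div_le_self (by positivity) j2).trans ((div_le_self hε.le j1).trans hε1)
  obtain ⟨c₀, hc₀⟩ : ∃ c, c = (γ / 6 / 8) ^ (2 * j) / 4 := ⟨_, rfl⟩
  obtain ⟨c₁, hc₁⟩ : ∃ c, c = (γ / 2) ^ (2 * j) := ⟨_, rfl⟩
  have c0 : 0 < c₀ := by rw [hc₀]; positivity
  have c1 : 0 < c₁ := by rw [hc₁]; positivity
  obtain ⟨R, hR⟩ := exists_nat_gt (2 * (2 * j : ℕ) / c₁)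
  have R0 : 0 < R := Nat.cast_pos.1 (lt_trans (by positivity) hR)
  have R1 : (1 : ℝ) ≤ R := by exact_mod_cast R0
  obtain ⟨L, hL⟩ : ∃ L : ℝ, L = ((2 * j : ℕ) + 1) * R ^ (2 * j) := ⟨_, rfl⟩
  have ev := fun C : ℝ => (tendsto_natCast_atTop_atTop (R := ℝ)).eventually_gt_atTop C
  obtain ⟨M, m1, m2, m3, m4, m5, m6, m7, m8, m9, m10⟩ := ((ev 2).and ((ev (6 / γ)).and ((ev R).and
    ((ev (20 * b ^ 2)).and ((ev (2 * b ^ 2 * (2 * a + 1).factorial / c₀ ^ 2)).and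
    ((ev (2 * (2 * j : ℕ) / c₁)).and ((ev (4 * b ^ 2 * j * (2 * j) ^ (2 * j) / (c₀ ^ 2 * c₁))).and
    ((ev (48 * b * L ^ 2)).and ((ev (2 * (7 * R) ^ k / ε)).and
    (ev (2 * 3 ^ k / ε))))))))))).exists
  have M0 : (0 : ℝ) < M := by linarith
  have M1 : (1 : ℝ) ≤ M := by linarith
  have e1 : ((γ / 6 / 8) ^ (2 * j) * (((M : ℝ) ^ a)⁻¹ / 4)) ^ 2 = c₀ ^ 2 / M ^ (2 * a) := by
    rw [hc₀]
    field_simp
    ring
  have e2 : 2 * ((M : ℝ) ^ (2 * k + 7))⁻¹ / ((M : ℝ) ^ (k + 2))⁻¹ = 2 / M ^ (k + 5) := by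
    field_simp
    ring
  rw [div_lt_iff₀ (by positivity)] at m2 m5 m6 m7 m9 m10 hR
  refine ⟨R, M, M ^ (4 * k + 16), j, (M ^ (k + 2))⁻¹, (M ^ a)⁻¹, (M ^ (2 * k + 7))⁻¹, γ / 6, γ, R0,
    by exact_mod_cast M1, Nat.one_le_pow _ _ (Nat.cast_pos.1 M0), j0, by positivity, by positivity,
    inv_le_one_of_one_le₀ (one_le_pow₀ M1), by positivity, by linarith, hγ, by linarith, ?_,
    by positivity, ?_, ?_, ?_, ?_, ?_, ?_, ?_, ?_, ?_⟩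
  · linarith [mul_le_mul_of_nonneg_left R1 (mul_pos M0 g0).le, mul_pos M0 g0]
  · rw [inv_mul_le_iff₀ (by positivity), mul_one]
    exact (by linarith [mul_le_mul_of_nonneg_left m3.le M0.le] : (R : ℝ) * M ≤ M ^ 2).trans (pow_le_pow_right₀ M1 (by omega))
  · rw [hγ]
    exact le_of_eq (by field_simp)
  · have b1 : (M : ℝ) ≤ (M ^ (4 * k + 16) : ℕ) *
        (((2 * b)⁻¹ * ((M : ℝ) ^ (2 * k + 7))⁻¹) ^ 2 / 5) := by
      rw [show ((M ^ (4 * k + 16) : ℕ) : ℝ) * (((2 * b)⁻¹ * ((M : ℝ) ^ (2 * k + 7))⁻¹) ^ 2 / 5) =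
        M * (M / (20 * b ^ 2)) by push_cast; field_simp; ring]
      exact le_mul_of_one_le_right M0.le ((one_le_div (by positivity)).2 m4.le)
    have b2 := pow_div_factorial_le_exp (M : ℝ) M0.le (2 * a + 1)
    rw [div_le_iff₀ (by positivity), pow_succ] at b2
    refine (mul_le_mul_of_nonneg_left (exp_le_exp.2 (neg_le_neg b1)) (by positivity)).trans ?_
    rw [e1, exp_neg, ← div_eq_mul_inv, div_le_div_iff₀ (by positivity) (by positivity)]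
    refine le_of_mul_le_mul_right ?_ M0
    have b3 := mul_le_mul_of_nonneg_left m5.le (exp_pos M).le
    linarith [mul_le_mul_of_nonneg_left b2 (by positivity : 0 ≤ 2 * b ^ 2)]
  · rw [← hc₁]
    linarith [mul_le_mul_of_nonneg_left hR.le M0.le, mul_le_mul_of_nonneg_left m6.le (by linarith :
      (0 : ℝ) ≤ R)]
  · rw [e1, ← hc₁, show c₀ ^ 2 / (M : ℝ) ^ (2 * a) * (c₁ * M ^ (2 * j)) =
      M * (c₀ ^ 2 * c₁) * M ^ j by rw [hj]; field_simp; ring]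
    linarith [mul_lt_mul_of_pos_right m7 (pow_pos M0 j)]
  · rw [e2, div_le_one (by positivity)]
    exact m1.le.trans (le_self_pow₀ M1 (by omega))
  · rw [← hL, pow_mul, ← mul_pow, e2]
    refine pow_lt_one₀ (by positivity) ?_ j0.ne'
    have b1 : 2 * (2 * b / ((M : ℝ) ^ (k + 2))⁻¹) + 2 ≤ 6 * b * M ^ (k + 2) := by
      rw [div_inv_eq_mul]
      linarith [one_le_mul_of_one_le_of_one_le hb (one_le_pow₀ M1 (n := k + 2))]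
    calc _ ≤ L ^ 2 * (4 * M ^ 2 * (2 / M ^ (k + 5)) * (6 * b * M ^ (k + 2))) := by gcongr
      _ = 48 * b * L ^ 2 / M := by field_simp; ring
      _ < 1 := (div_lt_one M0).2 m8
  · rw [show ((M : ℝ) ^ (k + 2))⁻¹ * (2 * M * (7 * M * R) ^ k) = 2 * (7 * R) ^ k / M by
      simp only [mul_pow]; field_simp; ring, div_le_iff₀ M0]
    linarith
  · rw [show ((M : ℝ) ^ a)⁻¹ * (2 * (3 * M * (M ^ (4 * k + 16) : ℕ)) ^ k) = 2 * 3 ^ k / M by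
      rw [ha]; push_cast; simp only [mul_pow, ← pow_mul]; field_simp; ring, div_le_iff₀ M0]
    linarith

end Pool.Agent.Lib.MP_5ea425_an.Smooth
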