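import Mathlib

/-!
The choice of the parameters of one stage in a normed space.
-/

set_option autoImplicit false

open Real Filter

namespace Pool.Agent.Lib.MP_5ea425_an.Smooth

theorem paramsB (k : ℕ) {ε b C : ℝ} (hε : 0 < ε) (hε1 : ε ≤ 1) (hb : 1 ≤ b) (hC : 0 ≤ C) :
    ∃ (R M j : ℕ) (w w₂ r η γ : ℝ), 0 < R ∧ 1 ≤ M ∧ 0 < j ∧ 0 < w ∧ 0 < w₂ ∧
      0 < η ∧ η ≤ 1 ∧ γ = ε / (2 * j : ℕ) / 2 ^ (2 * j) ∧ γ ≤ 2 ∧ 1 ≤ η * (R * M) ∧ 0 < r ∧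
      r * (R * M) ≤ 1 ∧ 2 ^ (2 * j) * (6 * η) ≤ ε / (2 * j : ℕ) ∧
      ((2 * j : ℕ) * M + (2 * j : ℕ) * R : ℝ) ≤ (γ / 2) ^ (2 * j) * R * M ∧
      (4 * M * b ^ 2 * (2 * (j * M ^ j) * (2 * j) ^ (2 * j)) : ℝ) <
        ((η / 8) ^ (2 * j) * (w₂ / 4)) ^ 2 * ((γ / 2) ^ (2 * j) * M ^ (2 * j)) ∧
      2 * r / w ≤ 1 ∧ (((2 * j : ℕ) + 1) * R ^ (2 * j) : ℝ) ^ (2 * j) *
        (4 * M ^ 2 * (2 * r / w) * (2 * (2 * b / w) + 2)) ^ j < 1 ∧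
      w * (C * M ^ 2 * (7 * M * R) ^ k) ≤ ε ∧ w₂ * (C * M ^ 3 * (C * M ^ 2 / r) ^ k) ≤ ε := by
  obtain ⟨a, ha⟩ : ∃ a, a = k * (2 * k + 11) + 4 := ⟨_, rfl⟩
  obtain ⟨j, hj⟩ : ∃ j, j = 2 * a + 2 := ⟨_, rfl⟩
  have j0 : 0 < j := by omega
  have j1 : (1 : ℝ) ≤ (2 * j : ℕ) := by exact_mod_cast (by omega)
  have j2 : (1 : ℝ) ≤ 2 ^ (2 * j) := one_le_pow₀ one_le_two
  obtain ⟨γ, hγ⟩ : ∃ γ, γ = ε / (2 * j : ℕ) / 2 ^ (2 * j) := ⟨_, rfl⟩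
  have g0 : 0 < γ := by rw [hγ]; positivity
  have g1 : γ ≤ 1 := by
    rw [hγ]
    exact (div_le_self (by positivity) j2).trans ((div_le_self hε.le j1).trans hε1)
  obtain ⟨c₀, hc₀⟩ : ∃ c, c = (γ / 6 / 8) ^ (2 * j) / 4 := ⟨_, rfl⟩
  obtain ⟨c₁, hc₁⟩ : ∃ c, c = (γ / 2) ^ (2 * j) := ⟨_, rfl⟩
  have c0 : 0 < c₀ := by rw [hc₀]; positivity
  have c1 : 0 < c₁ := by rw [hc₁]; positivity
  obtain ⟨R, hR⟩ := exists_nat_gt (2 * (2 * j : ℕ) / c₁)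
  have R0 : 0 < R := Nat.cast_pos.1 (lt_trans (by positivity) hR)
  have R1 : (1 : ℝ) ≤ R := by exact_mod_cast R0
  obtain ⟨L, hL⟩ : ∃ L : ℝ, L = ((2 * j : ℕ) + 1) * R ^ (2 * j) := ⟨_, rfl⟩
  have ev := fun C : ℝ => (tendsto_natCast_atTop_atTop (R := ℝ)).eventually_gt_atTop C
  obtain ⟨M, m1, m2, m3, m6, m7, m8, m9, m10⟩ := ((ev 2).and ((ev (6 / γ)).and ((ev R).and
    ((ev (2 * (2 * j : ℕ) / c₁)).and ((ev (8 * b ^ 2 * j * (2 * j) ^ (2 * j) / (c₀ ^ 2 * c₁))).and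
    ((ev (48 * b * L ^ 2)).and ((ev (C * (7 * R) ^ k / ε)).and
    (ev (C * C ^ k / ε))))))))).exists
  have M0 : (0 : ℝ) < M := by linarith
  have M1 : (1 : ℝ) ≤ M := by linarith
  have e1 : ((γ / 6 / 8) ^ (2 * j) * (((M : ℝ) ^ a)⁻¹ / 4)) ^ 2 = c₀ ^ 2 / M ^ (2 * a) := by
    rw [hc₀]
    field_simp
    ring
  have e2 : 2 * ((M : ℝ) ^ (2 * k + 9))⁻¹ / ((M : ℝ) ^ (k + 3))⁻¹ = 2 / M ^ (k + 6) := by
    field_simp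
    ring
  rw [div_lt_iff₀ (by positivity)] at m2 m6 m7 m9 m10 hR
  refine ⟨R, M, j, (M ^ (k + 3))⁻¹, (M ^ a)⁻¹, (M ^ (2 * k + 9))⁻¹, γ / 6, γ, R0,
    by exact_mod_cast M1, j0, by positivity, by positivity,
    by positivity, by linarith, hγ, by linarith, ?_, by positivity, ?_, ?_, ?_, ?_, ?_, ?_, ?_, ?_⟩
  · linarith [mul_le_mul_of_nonneg_left R1 (mul_pos M0 g0).le, mul_pos M0 g0]
  · rw [inv_mul_le_iff₀ (by positivity), mul_one]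
    exact (by linarith [mul_le_mul_of_nonneg_left m3.le M0.le] : (R : ℝ) * M ≤ M ^ 2).trans
      (pow_le_pow_right₀ M1 (by omega))
  · rw [hγ]
    exact le_of_eq (by field_simp)
  · rw [← hc₁]
    linarith [mul_le_mul_of_nonneg_left hR.le M0.le, mul_le_mul_of_nonneg_left m6.le (by linarith :
      (0 : ℝ) ≤ R)]
  · rw [e1, ← hc₁, show c₀ ^ 2 / (M : ℝ) ^ (2 * a) * (c₁ * M ^ (2 * j)) =
      M * (c₀ ^ 2 * c₁) * (M * M ^ j) by rw [hj]; field_simp; ring]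
    linarith [mul_lt_mul_of_pos_right m7 (mul_pos M0 (pow_pos M0 j))]
  · rw [e2, div_le_one (by positivity)]
    exact m1.le.trans (le_self_pow₀ M1 (by omega))
  · rw [← hL, pow_mul, ← mul_pow, e2]
    refine pow_lt_one₀ (by positivity) ?_ j0.ne'
    have b1 : 2 * (2 * b / ((M : ℝ) ^ (k + 3))⁻¹) + 2 ≤ 6 * b * M ^ (k + 3) := by
      rw [div_inv_eq_mul]
      linarith [one_le_mul_of_one_le_of_one_le hb (one_le_pow₀ M1 (n := k + 3))]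
    calc _ ≤ L ^ 2 * (4 * M ^ 2 * (2 / M ^ (k + 6)) * (6 * b * M ^ (k + 3))) := by gcongr
      _ = 48 * b * L ^ 2 / M := by field_simp; ring
      _ < 1 := (div_lt_one M0).2 m8
  · rw [show ((M : ℝ) ^ (k + 3))⁻¹ * (C * M ^ 2 * (7 * M * R) ^ k) = C * (7 * R) ^ k / M by
      simp only [mul_pow]; field_simp; ring, div_le_iff₀ M0]
    linarith
  · rw [show ((M : ℝ) ^ a)⁻¹ * (C * M ^ 3 * (C * M ^ 2 / ((M : ℝ) ^ (2 * k + 9))⁻¹) ^ k) =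
      C * C ^ k / M by
      rw [ha, div_inv_eq_mul]; simp only [mul_pow, ← pow_mul]; field_simp; ring, div_le_iff₀ M0]
    linarith

end Pool.Agent.Lib.MP_5ea425_an.Smooth
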