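import Pool.Agent.Lib.MP_5ea425_an.Smooth.Tree

/-!
The polynomial method: a deep tree cannot have its leaves close to a small set.
-/

set_option autoImplicit false

open Finset Polynomial

namespace Pool.Agent.Lib.MP_5ea425_an.Smooth

theorem lagr {ι : Type*} {P : ℝ[X]} {j : ℕ} (hP : P.natDegree ≤ j) {s : Finset ι}
    (hs : s.card = j + 1) {v : ι → ℝ} {R θ x : ℝ} (hR : 0 ≤ R)
    (hv : ∀ i ∈ s, ∀ i' ∈ s, i ≠ i' → 1 ≤ R * |v i - v i'|) (hx : ∀ i ∈ s, |x - v i| ≤ 1)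
    (hθ : ∀ i ∈ s, |P.eval (v i)| ≤ θ) : |P.eval x| ≤ (j + 1) * R ^ j * θ := by
  classical
  have hi : Set.InjOn v s := fun i h i' h' e => by
    by_contra hne
    have := hv i h i' h' hne
    rw [e, sub_self, abs_zero, mul_zero] at this
    linarith
  have hd : P.degree < s.card := degree_le_natDegree.trans_lt (by
    rw [hs]
    exact_mod_cast Nat.lt_succ_of_le hP)
  rw [Lagrange.eq_interpolate hi hd, Lagrange.interpolate_apply, eval_finsetSum]
  refine (abs_sum_le_sum_abs _ _).trans ((sum_le_card_nsmul _ _ (R ^ j * θ) fun i h => ?_).trans_eq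
    (by rw [hs, nsmul_eq_mul]; push_cast; ring))
  rw [eval_mul, eval_C, abs_mul, mul_comm, Lagrange.basis, eval_prod, abs_prod]
  refine mul_le_mul ?_ (hθ i h) (abs_nonneg _) (by positivity)
  refine (prod_le_prod (g := fun _ => R) (fun _ _ => abs_nonneg _) fun i' h' => ?_).trans_eq
    (by rw [prod_const, card_erase_of_mem h, hs, Nat.add_sub_cancel])
  have h1 := hv i h i' (mem_of_mem_erase h') (ne_of_mem_erase h').symm
  have h2 : 0 < |v i - v i'| := by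
    by_contra h3
    nlinarith [abs_nonneg (v i - v i'), not_lt.1 h3]
  simp only [Lagrange.basisDivisor, eval_mul, eval_C, eval_sub, eval_X, abs_mul, abs_inv]
  rw [inv_mul_le_iff₀ h2]
  linarith [hx i' (mem_of_mem_erase h')]

variable {M : ℕ}

/-- Functions that are polynomials of degree at most `j` on each line. -/
def Pl (j : ℕ) (F : (Fin M → ℝ) → ℝ) : Prop :=
  ∀ u v, ∃ P : ℝ[X], P.natDegree ≤ j ∧ ∀ t : ℝ, F (u + t • v) = P.eval t

/-- The alternating sum of the unit vectors named by `g`. -/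
noncomputable def sh (e : ℝ) {r : ℕ} (g : Fin r → Fin M) (c : Fin M) : ℝ :=
  ∑ i, if g i = c then e * (-1) ^ (i : ℕ) else 0

theorem sh_cons (e : ℝ) {r : ℕ} (c : Fin M) (g : Fin r → Fin M) :
    sh e (Fin.cons c g : Fin (r + 1) → Fin M) = e • Pi.single c 1 + sh (-e) g := by
  ext c'
  simp only [sh, Fin.sum_univ_succ, Fin.cons_zero, Fin.cons_succ, Pi.add_apply, Pi.smul_apply,
    Pi.single_apply, Fin.val_succ, pow_succ, eq_comm (a := c')]
  congr 1
  · simp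
  · exact sum_congr rfl fun i _ => by split_ifs <;> ring

theorem jets {j : ℕ} (hM : 1 ≤ M) (𝒞 : Finset (Fin (2 * j) → Fin M))
    (hi : ∀ g ∈ 𝒞, Function.Injective g) {ι : Type} (S : Finset ι) (w : ι → Fin M → ℝ) {Ω ρ e : ℝ}
    (hw : ∀ s ∈ S, ∀ c, |w s c| ≤ Ω) (hΩ : 1 ≤ Ω) (h0 : 0 ≤ ρ) (h1 : ρ ≤ 1) (he : |e| = 1)
    (hc : S.card * (j * M ^ j) * (2 * j) ^ (2 * j) < 𝒞.card) :
    ∃ (F : (Fin M → ℝ) → ℝ) (μ : ℝ), 0 < μ ∧ Pl (2 * j) F ∧
      (∀ s ∈ S, ∀ z, (∀ c, |z c| ≤ ρ) → |F (z + w s)| ≤ μ * (4 * M ^ 2 * ρ * Ω) ^ j) ∧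
      ∃ g ∈ 𝒞, |F (sh e g)| = μ := by
  classical
  set 𝒜 := 𝒞.image fun g => univ.image g with h𝒜
  set 𝒥 : Finset (Finset (Fin M)) := univ.filter fun I => I.card < j with h𝒥
  have a1 : ∀ A : 𝒜, (A : Finset (Fin M)).card = 2 * j := fun A => by
    obtain ⟨g, hg, e⟩ := mem_image.1 A.2
    rw [← e, card_image_of_injective _ (hi g hg), card_univ, Fintype.card_fin]
  have a2 : 𝒞.card ≤ (2 * j) ^ (2 * j) * 𝒜.card := card_le_mul_card_image _ _ fun A hA => by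
    refine (card_le_card (t := Fintype.piFinset fun _ => A) fun g hg => ?_).trans_eq ?_
    · exact Fintype.mem_piFinset.2 fun i => (mem_filter.1 hg).2 ▸ mem_image_of_mem _ (mem_univ i)
    · rw [Fintype.card_piFinset_const, a1 ⟨A, hA⟩]
  have a3 : 𝒥.card ≤ j * M ^ j := by
    refine (card_le_card (t := (range j).biUnion fun i => powersetCard i univ)
      fun I hI => ?_).trans ((card_biUnion_le_card_mul _ _ (M ^ j) fun i h => ?_).trans_eq (by simp))
    · exact mem_biUnion.2 ⟨_, mem_range.2 (mem_filter.1 hI).2,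
        mem_powersetCard.2 ⟨subset_univ _, rfl⟩⟩
    · rw [card_powersetCard, card_univ, Fintype.card_fin]
      exact (Nat.choose_le_pow _ _).trans (Nat.pow_le_pow_right hM (mem_range.1 h).le)
  have a4 : S.card * 𝒥.card < 𝒜.card := by
    refine lt_of_mul_lt_mul_left (a := (2 * j) ^ (2 * j)) (lt_of_le_of_lt ?_ (hc.trans_le a2))
      (Nat.zero_le _)
    rw [mul_comm]
    gcongr
  let N : Matrix (S × 𝒥) 𝒜 ℝ := fun z A =>
    if z.2.1 ⊆ A.1 then ∏ c ∈ A.1 \ z.2.1, w z.1 c else 0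
  obtain ⟨l, l1, l2⟩ := Submodule.exists_mem_ne_zero_of_ne_bot
    (N.mulVecLin.ker_ne_bot_of_finrank_lt (by simpa using a4))
  obtain ⟨A₁, hA₁⟩ := Function.ne_iff.1 l2
  haveI : Nonempty 𝒜 := ⟨A₁⟩
  obtain ⟨A₀, hA₀⟩ := Finite.exists_max fun A => |l A|
  have l3 : 0 < |l A₀| := (abs_pos.2 hA₁).trans_le (hA₀ _)
  refine ⟨fun z => ∑ A : 𝒜, l A * ∏ c ∈ A.1, z c, |l A₀|, l3, fun u v => ?_, fun s hs z hz => ?_, ?_⟩
  · refine ⟨∑ A : 𝒜, C (l A) * ∏ c ∈ A.1, (C (v c) * X + C (u c)),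
      natDegree_sum_le_of_forall_le _ _ fun A _ => (natDegree_C_mul_le _ _).trans
        ((natDegree_prod_le _ _).trans ((sum_le_card_nsmul _ _ 1 fun c _ =>
          natDegree_linear_le).trans_eq (by simp [a1]))), fun t => ?_⟩
    simp only [eval_finsetSum, eval_prod, eval_mul, eval_add, eval_C, eval_X, Pi.add_apply,
      Pi.smul_apply, smul_eq_mul]
    exact sum_congr rfl fun A _ => congrArg _ (prod_congr rfl fun c _ => by ring)
  · have b1 : ∑ A : 𝒜, l A * ∑ I ∈ A.1.powerset with I.card < j,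
        (∏ c ∈ I, z c) * ∏ c ∈ A.1 \ I, w s c = 0 := by
      have b2 : ∀ A : 𝒜, l A * ∑ I ∈ A.1.powerset with I.card < j,
          (∏ c ∈ I, z c) * ∏ c ∈ A.1 \ I, w s c =
          ∑ I : 𝒥, (∏ c ∈ I.1, z c) * (N (⟨s, hs⟩, I) A * l A) := fun A => by
        rw [show A.1.powerset.filter (fun I => I.card < j) = 𝒥.filter (· ⊆ A.1) by
          ext I
          simp [h𝒥, and_comm], sum_filter, mul_sum, ← sum_coe_sort]
        exact sum_congr rfl fun I _ => by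
          simp only [N]
          split_ifs <;> ring
      rw [sum_congr rfl fun A _ => b2 A, sum_comm]
      exact sum_eq_zero fun I _ => by
        rw [← mul_sum]
        exact mul_eq_zero_of_right _ (congrFun l1 (⟨s, hs⟩, I))
    simp only [Pi.add_apply, prod_add]
    rw [sum_congr rfl fun A _ => by
      rw [← sum_filter_add_sum_filter_not _ (fun I => I.card < j), mul_add], sum_add_distrib, b1,
      zero_add]
    refine (abs_sum_le_sum_abs _ _).trans ((sum_le_card_nsmul _ _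
      (|l A₀| * (4 ^ j * (ρ ^ j * Ω ^ j))) fun A _ => ?_).trans ?_)
    · rw [abs_mul]
      refine mul_le_mul (hA₀ A) ((abs_sum_le_sum_abs _ _).trans ((sum_le_card_nsmul _ _
        (ρ ^ j * Ω ^ j) fun I hI => ?_).trans ?_)) (abs_nonneg _) (abs_nonneg _)
      · obtain ⟨c1, c2⟩ := mem_filter.1 hI
        rw [abs_mul, abs_prod, abs_prod]
        refine mul_le_mul ((prod_le_prod (g := fun _ => ρ) (fun _ _ => abs_nonneg _)
          fun c _ => hz c).trans ?_) ((prod_le_prod (g := fun _ => Ω) (fun _ _ => abs_nonneg _)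
          fun c _ => hw s hs c).trans ?_) (prod_nonneg fun _ _ => abs_nonneg _) (by positivity)
        · rw [prod_const]
          exact pow_le_pow_of_le_one h0 h1 (not_lt.1 c2)
        · rw [prod_const, card_sdiff_of_subset (mem_powerset.1 c1), a1]
          exact pow_le_pow_right₀ hΩ (by omega)
      · rw [nsmul_eq_mul]
        gcongr
        have := (card_filter_le A.1.powerset fun I => ¬ I.card < j).trans_eq (card_powerset _)
        rw [a1, pow_mul] at this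
        exact_mod_cast this
    · have c1 : (𝒜.card : ℝ) ≤ (M ^ 2) ^ j := by
        have : 𝒜.card ≤ _ := card_image_le.trans (card_le_univ 𝒞)
        rw [Fintype.card_fun, Fintype.card_fin, Fintype.card_fin, pow_mul] at this
        exact_mod_cast this
      rw [nsmul_eq_mul, card_univ, Fintype.card_coe, mul_pow, mul_pow, mul_pow]
      calc _ ≤ ((M : ℝ) ^ 2) ^ j * (|l A₀| * (4 ^ j * (ρ ^ j * Ω ^ j))) := by gcongr
        _ = _ := by ring
  · obtain ⟨g, hg, e1⟩ := mem_image.1 A₀.2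
    refine ⟨g, hg, ?_⟩
    dsimp only
    rw [sum_eq_single A₀ (fun A _ hA => ?_) (by simp), abs_mul, abs_prod,
      prod_eq_one fun c hc => ?_, mul_one]
    · obtain ⟨i, -, rfl⟩ := mem_image.1 (e1 ▸ hc)
      rw [sh, sum_eq_single i (fun i' _ h => if_neg fun h' => h (hi g hg h')) (by simp)]
      simp [abs_mul, he]
    · obtain ⟨c, c1, c2⟩ := not_subset.1 fun h : A.1 ⊆ A₀.1 =>
        hA (Subtype.ext (eq_of_subset_of_card_le h (by rw [a1, a1])))
      refine mul_eq_zero_of_right _ (prod_eq_zero c1 (sum_eq_zero fun i _ => if_neg fun h => c2 ?_))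
      exact e1 ▸ h ▸ mem_image_of_mem _ (mem_univ i)

variable {B : Type} [NormedAddCommGroup B] [NormedSpace ℝ B] {R : ℕ} (Φ : Fr B (Fin R × Fin M))

theorem Fr.tuples (Ξ : B →ₗ[ℝ] Fin M → ℝ) {t₀ γ : ℝ} {j : ℕ} (hR : 0 < R) (hγ0 : 0 ≤ γ)
    (hγ : γ ≤ 2) (h1 : ∀ i i', |Φ.τ i - Φ.τ i'| ≤ 1)
    (h2 : ∀ ρ ρ' c, ρ ≠ ρ' → 1 ≤ R * |Φ.τ (ρ, c) - Φ.τ (ρ', c)|)
    (h3 : ∀ i, Ξ (Φ.E (t₀ + Φ.τ i)) = Pi.single i.2 1)
    (h4 : (j * M + j * R : ℝ) ≤ (γ / 2) ^ j * R * M) (Leaf : B → Prop) (r : ℕ) : r ≤ j →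
    ∀ σ i p, Φ.t p = t₀ + Φ.τ i → Φ.Tr Leaf (γ * R * M) r σ i p →
    ∃ 𝒞 : Finset (Fin r → Fin M), (γ / 2) ^ r * M ^ r ≤ 𝒞.card ∧
      (∀ g ∈ 𝒞, Function.Injective g) ∧ ∀ (F : (Fin M → ℝ) → ℝ) (θ : ℝ), Pl j F →
      (∀ σ' i' q, Φ.t q = t₀ + Φ.τ i' → Leaf q → |F (Ξ q + sg σ' • Pi.single i'.2 1)| ≤ θ) →
      ∀ g ∈ 𝒞, |F (Ξ p + sg σ • Pi.single i.2 1 + sh (1 - 2 * sg σ) g)| ≤
        ((j + 1) * R ^ j) ^ r * θ := by
  classical
  induction r with
  | zero =>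
    refine fun _ σ i p a1 a2 => ⟨univ, by simp, fun g _ => Function.injective_of_subsingleton g,
      fun F θ _ hF g _ => ?_⟩
    rw [show sh (1 - 2 * sg σ) g = 0 from funext fun c => by simp [sh], add_zero, pow_zero, one_mul]
    exact hF σ i p a1 a2
  | succ r ih =>
    rintro hr σ i p a1 ⟨a, C, a2, a3, a4⟩
    choose! 𝒢 b1 b2 b3 using fun i' hi => ih (by omega) _ _ _ (Φ.t_ch σ i' a2 a1) (a4 i' hi)
    let n : Fin M × (Fin r → Fin M) → Finset (Fin R) := fun z =>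
      univ.filter fun ρ => (ρ, z.1) ∈ C ∧ z.2 ∈ 𝒢 (ρ, z.1)
    let X := univ.filter fun z : Fin M × (Fin r → Fin M) =>
      z.1 ∉ univ.image z.2 ∧ j + 1 ≤ (n z).card
    have c1 : γ * R * M * ((γ / 2) ^ r * M ^ r) ≤ ∑ z, ((n z).card : ℝ) := by
      refine (mul_le_mul_of_nonneg_right a3 (by positivity)).trans ?_
      rw [← nsmul_eq_mul]
      refine (card_nsmul_le_sum C (fun i' => ((𝒢 i').card : ℝ)) _ b1).trans_eq ?_
      have d1 : ∑ i' ∈ C, ((𝒢 i').card : ℝ) =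
          ∑ i', ∑ g, if i' ∈ C ∧ g ∈ 𝒢 i' then (1 : ℝ) else 0 := by
        rw [← univ_inter C, ← sum_ite_mem, univ_inter]
        exact sum_congr rfl fun i' _ => by by_cases h : i' ∈ C <;> simp [h]
      rw [d1, Fintype.sum_prod_type, sum_comm]
      simp only [n, natCast_card_filter, Fintype.sum_prod_type]
      exact sum_congr rfl fun c _ => sum_comm
    have c2 : ∑ z, ((n z).card : ℝ) ≤ R * X.card + j * M * M ^ r + j * R * M ^ r := by
      have d1 : ∀ z, ((n z).card : ℝ) ≤ R * (if z.1 ∉ univ.image z.2 ∧ j + 1 ≤ (n z).card then 1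
          else 0) + j + R * (if z.1 ∈ univ.image z.2 then 1 else 0) := fun z => by
        have e1 : ((n z).card : ℝ) ≤ R := by exact_mod_cast (card_le_univ _).trans_eq (by simp)
        have e2 : (0 : ℝ) ≤ j := Nat.cast_nonneg j
        have e3 : (0 : ℝ) ≤ R := Nat.cast_nonneg R
        split_ifs with e4 e5 e5
        · linarith
        · linarith
        · linarith
        · have : ((n z).card : ℝ) ≤ j := by
            exact_mod_cast Nat.le_of_lt_succ (not_le.1 fun h => e4 ⟨e5, h⟩)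
          linarith
      refine (sum_le_sum fun z _ => d1 z).trans ?_
      rw [sum_add_distrib, sum_add_distrib, ← mul_sum, ← mul_sum, ← natCast_card_filter]
      refine add_le_add (le_of_eq (by simp [X, mul_comm, mul_left_comm, mul_assoc])) ?_
      rw [mul_comm (j : ℝ), mul_assoc, Fintype.sum_prod_type_right]
      refine mul_le_mul_of_nonneg_left ((sum_le_card_nsmul _ _ (j : ℝ) fun g _ => ?_).trans_eq
        (by simp [mul_comm])) (Nat.cast_nonneg _)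
      dsimp only
      rw [← natCast_card_filter, filter_mem_eq_inter, univ_inter]
      exact_mod_cast card_image_le.trans (by simpa using by omega)
    refine ⟨X.map (Fin.consEquiv fun _ => Fin M).toEmbedding, ?_, fun g hg => ?_,
      fun F θ hF hθ g hg => ?_⟩
    · rw [card_map]
      have d1 : (γ / 2) ^ j ≤ (γ / 2) ^ (r + 1) :=
        pow_le_pow_of_le_one (by positivity) (by linarith) hr
      have d2 : (j * M + j * R : ℝ) * M ^ r ≤ (γ / 2) ^ (r + 1) * R * M * M ^ r := by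
        gcongr
        exact h4.trans (by gcongr)
      refine le_of_mul_le_mul_left ?_ (Nat.cast_pos.2 hR)
      rw [pow_succ] at d2
      rw [pow_succ, pow_succ]
      linarith
    · obtain ⟨⟨c, g⟩, d1, rfl⟩ := mem_map.1 hg
      obtain ⟨d2, d3⟩ := (mem_filter.1 d1).2
      obtain ⟨ρ, d4⟩ := card_pos.1 (Nat.succ_pos j |>.trans_le d3)
      exact Fin.cons_injective_iff.2 ⟨by simpa using d2,
        b2 _ (mem_filter.1 d4).2.1 _ (mem_filter.1 d4).2.2⟩
    · obtain ⟨⟨c, g⟩, d1, rfl⟩ := mem_map.1 hg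
      obtain ⟨s, d2, d3⟩ := exists_subset_card_eq (mem_filter.1 d1).2.2
      obtain ⟨P, d4, d5⟩ := hF (Ξ p + sg σ • Pi.single i.2 1 +
        sh (1 - 2 * sg σ) (Fin.cons c g : Fin (r + 1) → Fin M)) (Ξ a)
      have d6 := lagr d4 d3 (v := fun ρ => Φ.τ (ρ, c) - Φ.τ i) (x := 0) (R := R)
        (θ := ((j + 1) * R ^ j) ^ r * θ) (Nat.cast_nonneg _)
        (fun ρ _ ρ' _ h => by simpa using h2 ρ ρ' c h) (fun ρ _ => by simpa using h1 i (ρ, c))
        fun ρ h => by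
          obtain ⟨e1, e2⟩ := (mem_filter.1 (d2 h)).2
          rw [← d5]
          convert b3 _ e1 F θ hF hθ g e2 using 3
          rw [sh_cons, Fr.ch, a1, add_assoc t₀, add_sub_cancel]
          simp only [map_add, map_smul, map_sub, h3]
          have e3 : sg (!σ) = 1 - sg σ := by cases σ <;> simp [sg]
          rw [e3, show 1 - 2 * (1 - sg σ) = -(1 - 2 * sg σ) by ring]
          module
      rw [← d5, zero_smul, add_zero] at d6
      exact d6.trans_eq (by ring)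

theorem Fr.no_tree (Ξ : B →ₗ[ℝ] Fin M → ℝ) {t₀ γ : ℝ} {j : ℕ} (hR : 0 < R) (hM : 1 ≤ M)
    (hγ0 : 0 ≤ γ) (hγ : γ ≤ 2) (h1 : ∀ i i', |Φ.τ i - Φ.τ i'| ≤ 1)
    (h2 : ∀ ρ ρ' c, ρ ≠ ρ' → 1 ≤ R * |Φ.τ (ρ, c) - Φ.τ (ρ', c)|)
    (h3 : ∀ i, Ξ (Φ.E (t₀ + Φ.τ i)) = Pi.single i.2 1)
    (h4 : ((2 * j : ℕ) * M + (2 * j : ℕ) * R : ℝ) ≤ (γ / 2) ^ (2 * j) * R * M) {Leaf : B → Prop}
    (S : Finset (Fin M × B)) {Ω ρ : ℝ} (hΩ : 0 ≤ Ω) (hρ0 : 0 ≤ ρ) (hρ : ρ ≤ 1)
    (h5 : ∀ s ∈ S, ∀ c, |Ξ s.2 c| ≤ Ω)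
    (h6 : ∀ i q, Φ.t q = t₀ + Φ.τ i → Leaf q → ∃ s ∈ S, s.1 = i.2 ∧ ∀ c, |Ξ (q - s.2) c| ≤ ρ)
    (h7 : (S.card * 2 * (j * M ^ j) * (2 * j) ^ (2 * j) : ℝ) < (γ / 2) ^ (2 * j) * M ^ (2 * j))
    (h8 : (((2 * j : ℕ) + 1) * R ^ (2 * j) : ℝ) ^ (2 * j) * (4 * M ^ 2 * ρ * (2 * Ω + 2)) ^ j < 1)
    {σ : Bool} {i : Fin R × Fin M} {p : B} (hp : Φ.t p = t₀ + Φ.τ i) (hp' : ∀ c, |Ξ p c| ≤ Ω) :
    ¬ Φ.Tr Leaf (γ * R * M) (2 * j) σ i p := fun h => by
  classical
  obtain ⟨𝒞, a1, a2, a3⟩ := Φ.tuples Ξ hR hγ0 hγ h1 h2 h3 h4 Leaf _ le_rfl σ i p hp h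
  have b1 : ∀ (σ : Bool) (c c' : Fin M), |(sg σ • Pi.single c (1 : ℝ) : Fin M → ℝ) c'| ≤ 1 :=
    fun σ c c' => by by_cases e : c' = c <;> cases σ <;> simp [sg, e]
  obtain ⟨F, μ, c1, c2, c3, g, c4, c5⟩ := jets hM 𝒞 a2 (S ×ˢ (univ : Finset Bool))
    (fun s => Ξ s.1.2 + sg s.2 • Pi.single s.1.1 1 - (Ξ p + sg σ • Pi.single i.2 1))
    (Ω := 2 * Ω + 2) (e := 1 - 2 * sg σ) (fun s hs c => by
      have d1 := abs_le.1 (h5 _ (mem_product.1 hs).1 c)
      have d2 := abs_le.1 (hp' c)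
      have d3 := abs_le.1 (b1 s.2 s.1.1 c)
      have d4 := abs_le.1 (b1 σ i.2 c)
      simp only [Pi.sub_apply, Pi.add_apply]
      exact abs_le.2 ⟨by linarith, by linarith⟩) (by linarith) hρ0 hρ
    (by cases σ <;> norm_num [sg]) (by
      rw [card_product, card_univ, Fintype.card_bool]
      exact_mod_cast h7.trans_le a1)
  have d1 := a3 (fun z => F (z - (Ξ p + sg σ • Pi.single i.2 1))) _
    (fun u v => by simpa only [add_sub_right_comm] using c2 (u - _) v) (fun σ' i' q e1 e2 => by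
      obtain ⟨s, e3, e4, e5⟩ := h6 i' q e1 e2
      convert c3 (s, σ') (mem_product.2 ⟨e3, mem_univ _⟩) _ e5 using 3
      rw [map_sub, e4]
      abel) g c4
  rw [add_sub_cancel_left, c5] at d1
  nlinarith

end Pool.Agent.Lib.MP_5ea425_an.Smooth
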