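import Pool.Agent.Lib.MP_5ea425_an.Smooth.Core
import Pool.Agent.Lib.MP_5ea425_an.Smooth.Par

/-!
One stage of the construction: two small smooth perturbations, the second depending on the
coordinates moved by the first.
-/

set_option autoImplicit false

open Finset Real MeasureTheory
open scoped RealInnerProductSpace ContDiff

namespace Pool.Agent.Lib.MP_5ea425_an.Smooth

theorem vol_le {L : Type} [Fintype L] (τ : L → ℝ) {P : L → Set ℝ} (hP : ∀ i, MeasurableSet (P i))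
    {β h n : ℝ} (hβ : ∀ t, cnt (fun i => t + τ i ∈ P i) ≤ β) (hh : 0 ≤ h) :
    volume {c | ∃ i, c - τ i ∈ Set.Ico n (n + h) ∧ c ∈ P i} ≤ ENNReal.ofReal (h * β) := by
  classical
  have a1 : ∀ i, MeasurableSet ((· + τ i) ⁻¹' P i) := fun i => measurable_add_const _ (hP i)
  rw [Set.setOf_exists]
  refine (measure_iUnion_fintype_le _ _).trans ?_
  have a2 : ∀ i, volume {c | c - τ i ∈ Set.Ico n (n + h) ∧ c ∈ P i} =
      ∫⁻ t in Set.Ico n (n + h), ((· + τ i) ⁻¹' P i).indicator 1 t := fun i => by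
    rw [lintegral_indicator_one (a1 i), Measure.restrict_apply (a1 i),
      ← measure_preimage_add_right volume (τ i)]
    congr 1
    ext t
    simp [and_comm]
  rw [sum_congr rfl fun i _ => a2 i,
    ← lintegral_finset_sum _ fun i _ => measurable_one.indicator (a1 i)]
  refine (lintegral_mono (g := fun _ => ENNReal.ofReal β) fun t => ?_).trans_eq ?_
  · refine le_trans (le_of_eq ?_) (ENNReal.ofReal_le_ofReal (hβ t))
    rw [cnt_eq, ENNReal.ofReal_sum_of_nonneg fun i _ => by split_ifs <;> norm_num]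
    exact sum_congr rfl fun i _ => by by_cases e : t + τ i ∈ P i <;> simp [e]
  · rw [lintegral_const, Measure.restrict_apply_univ, Real.volume_Ico, add_sub_cancel_left,
      ENNReal.ofReal_mul hh, mul_comm]

theorem kap {b κ c w : ℝ} (hb : 1 ≤ b) (hκ : 0 ≤ κ) (h0 : 0 < c) (h1 : c ≤ 1) (h2 : 0 < w)
    (h3 : w ≤ 1) (h : 2 * b ^ 2 * κ ≤ (c * (w / 4)) ^ 2) : κ ≤ c / 4 := by
  have a3 : c * (w / 4) ≤ c / 4 := by nlinarith
  have a4 := pow_le_pow_left₀ (by positivity) a3 2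
  nlinarith [mul_le_mul_of_nonneg_right (one_le_pow₀ hb (n := 2)) hκ]

/-- The index set of the orthonormal vectors of a stage. -/
abbrev Ix (M m : ℕ) := (Fin M × Bool) ⊕ ((Option (Fin M × Bool) × Fin m → Bool) × Bool)

variable {H : Type*} [NormedAddCommGroup H] [InnerProductSpace ℝ H]

theorem features {M : ℕ} (hM : 1 ≤ M) {m : ℕ} {b : ℝ} (hb : 1 ≤ b) :
    ∃ ℓ : (Option (Fin M × Bool) × Fin m → Bool) → Bs M →L[ℝ] ℝ, (∀ ξ, ‖ℓ ξ‖ ≤ 3 * M * m) ∧
      ∀ p q, ∑ ξ, cos (ℓ ξ p - ℓ ξ q) = Fintype.card (Option (Fin M × Bool) × Fin m → Bool) *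
        ∏ z : Option (Fin M × Bool) × Fin m, cos ((2 * b)⁻¹ * (p z.1 - q z.1)) := by
  refine ⟨fun ξ => ∑ z, ((if ξ z then 1 else -1) * (2 * b)⁻¹ : ℝ) • ContinuousLinearMap.proj z.1,
    fun ξ => ContinuousLinearMap.opNorm_le_bound _ (by positivity) fun p => ?_, fun p q => ?_⟩
  · rw [ContinuousLinearMap.sum_apply]
    refine (norm_sum_le _ _).trans ((sum_le_card_nsmul _ _ ‖p‖ fun z _ => ?_).trans ?_)
    · have a1 : (2 * b)⁻¹ ≤ 1 := inv_le_one_of_one_le₀ (by linarith)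
      rw [ContinuousLinearMap.smul_apply, norm_smul, norm_mul, norm_of_nonneg (r := (2 * b)⁻¹)
        (by positivity), show ‖(if ξ z then 1 else -1 : ℝ)‖ = 1 by split_ifs <;> simp, one_mul,
        ← one_mul ‖p‖]
      exact mul_le_mul a1 (norm_le_pi_norm p z.1) (norm_nonneg _) zero_le_one
    · have a1 : (1 : ℝ) ≤ M := by exact_mod_cast hM
      simp only [nsmul_eq_mul, card_univ, Fintype.card_prod, Fintype.card_option, Fintype.card_fin,
        Fintype.card_bool]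
      push_cast
      gcongr
      linarith
  · have h := sum_cos_sign fun z : Option (Fin M × Bool) × Fin m => (2 * b)⁻¹ * (p z.1 - q z.1)
    rw [prod_mul_distrib, prod_const, card_univ] at h
    rw [Fintype.card_fun, Fintype.card_bool, Nat.cast_pow, Nat.cast_ofNat, ← h]
    refine sum_congr rfl fun ξ _ => congrArg cos ?_
    simp only [ContinuousLinearMap.sum_apply, ContinuousLinearMap.smul_apply,
      ContinuousLinearMap.proj_apply, smul_eq_mul, ← sum_sub_distrib]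
    exact sum_congr rfl fun z _ => by ring

theorem stage [MeasurableSpace H] [BorelSpace H] (k : ℕ) {ε b : ℝ} (hε : 0 < ε) (hε1 : ε ≤ 1)
    (hb : 1 ≤ b) : ∃ M m : ℕ, ∀ (e : H) (f : Ix M m → H), ‖e‖ = 1 → Orthonormal ℝ f →
      (∀ p, ⟪e, f p⟫ = 0) → ∃ u₁ u₂ : H → H, ContDiff ℝ ∞ u₁ ∧ ContDiff ℝ ∞ u₂ ∧
      (∀ i ≤ k, ∀ x, ‖iteratedFDeriv ℝ i u₁ x‖ ≤ ε) ∧ (∀ i ≤ k, ∀ x, ‖iteratedFDeriv ℝ i u₂ x‖ ≤ ε) ∧
      (∀ x y, ⟪e, x⟫ = ⟪e, y⟫ → u₁ x = u₁ y) ∧
      (∀ x y, ⟪e, x⟫ = ⟪e, y⟫ → (∀ p, ⟪f (.inl p), x⟫ = ⟪f (.inl p), y⟫) → u₂ x = u₂ y) ∧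
      (∀ v x, (∀ p, ⟪v, f (.inl p)⟫ = 0) → ⟪v, u₁ x⟫ = 0) ∧
      (∀ v x, (∀ p, ⟪v, f (.inr p)⟫ = 0) → ⟪v, u₂ x⟫ = 0) ∧
      ∀ T : H ≃ H, Continuous T → Continuous T.symm → (∀ x, ⟪e, T x⟫ = ⟪e, x⟫) →
        (∀ p x, ⟪f p, T x⟫ = ⟪f p, x + u₁ x + u₂ x⟫) → ∃ E : ℤ → Bool → Set H,
        (∀ n σ, MeasurableSet (E n σ)) ∧ (∀ n y v, ⟪e, y⟫ = 0 → ⟪e, v⟫ = 1 →
          volume {c : ℝ | y + c • v ∈ E n false} ≤ ENNReal.ofReal ε ∧
          volume {c : ℝ | T.symm (y + c • v) ∈ E n true} ≤ ENNReal.ofReal ε) ∧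
        ∀ x, ‖x‖ < b → ‖T x‖ ≤ b → x ∈ E ⌊⟪e, x⟫⌋ false ∪ E ⌊⟪e, x⟫⌋ true := by
  obtain ⟨R, M, m, j, w, w₂, r, η, γ, p1, p2, p3, p4, p5, p6, p7, p8, p9, p10, p11, p12, p13, p14,
    p15, p16, p17, p18, p19, p20, p21, p22⟩ := params k hε hε1 hb
  refine ⟨M, m, fun e f he hf hef => ?_⟩
  obtain ⟨ℓ, l1, l2⟩ := features p2 (m := m) hb
  have R1 : (1 : ℝ) ≤ R := by exact_mod_cast p1
  have M1 : (1 : ℝ) ≤ M := by exact_mod_cast p2
  have m1 : (1 : ℝ) ≤ m := by exact_mod_cast p3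
  have G0 : (0 : ℝ) < R * M := by positivity
  have f1 : Orthonormal ℝ fun p => f (.inl p) := hf.comp _ Sum.inl_injective
  have f2 : Orthonormal ℝ fun p => f (.inr p) := hf.comp _ Sum.inr_injective
  let crd : H →L[ℝ] Bs M := .pi fun d => innerSL ℝ (d.elim e fun p => f (.inl p))
  have c1 : ∀ x d, |crd x d| ≤ ‖x‖ := fun x d => (abs_real_inner_le_norm _ x).trans_eq (by
    cases d <;> simp [he, hf.1])
  have c2 : ‖crd‖ ≤ 1 := ContinuousLinearMap.opNorm_le_bound _ zero_le_one fun x =>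
    (pi_norm_le_iff_of_nonneg (by positivity)).2 fun d => (c1 x d).trans_eq (one_mul _).symm
  obtain ⟨N, hN⟩ : ∃ N : ℝ, N = Fintype.card (Option (Fin M × Bool) × Fin m → Bool) := ⟨_, rfl⟩
  have N0 : 0 < N := hN ▸ Nat.cast_pos.2 Fintype.card_pos
  let φ : Bs M → H := fun q => (√N)⁻¹ • Psi (fun p => f (.inr p)) fun ξ => ℓ ξ q
  have k0 : ∀ p q, ⟪φ p, φ q⟫ = ∏ z : Option (Fin M × Bool) × Fin m,
      cos ((2 * b)⁻¹ * (p z.1 - q z.1)) := fun p q => by
    simp only [φ, inner_smul_left, inner_smul_right, conj_trivial]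
    rw [inner_Psi f2, l2, ← hN, ← mul_assoc, ← mul_assoc, ← mul_inv, mul_self_sqrt N0.le,
      inv_mul_cancel₀ N0.ne', one_mul]
  have k1 : ∀ q, ⟪φ q, φ q⟫ = 1 := fun q => by
    rw [k0]
    simp
  have k2 : ∀ p q d, r ≤ |p d - q d| → |p d - q d| ≤ 2 * b →
      |⟪φ p, φ q⟫| ≤ exp (-(m * (((2 * b)⁻¹ * r) ^ 2 / 5))) := fun p q d h1 h2 => by
    rw [k0]
    refine kernel_le m (fun d => (2 * b)⁻¹ * (p d - q d)) (d := d) (by positivity) ?_ ?_ <;>
      rw [abs_mul, abs_of_pos (a := (2 * b)⁻¹) (by positivity)]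
    · gcongr
    · rw [inv_mul_le_iff₀ (by positivity)]
      linarith
  have o1 : ∀ (v x : H), (∀ p, ⟪v, f (.inl p)⟫ = 0) → ⟪v, w • Psi (fun p => f (.inl p))
      fun ν => ((2 * π * ν * R) • innerSL ℝ e) x⟫ = 0 := fun v x h => by
    rw [inner_smul_right, inner_Psi_zero h, mul_zero]
  have o2 : ∀ (v : H) q, (∀ p, ⟪v, f (.inr p)⟫ = 0) → ⟪v, φ q⟫ = 0 := fun v q h => by
    rw [inner_smul_right, inner_Psi_zero h, mul_zero]
  refine ⟨fun x => w • Psi (fun p => f (.inl p)) fun ν => ((2 * π * ν * R) • innerSL ℝ e) x,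
    fun x => w₂ • φ (crd x), (Psi_smooth _ _).const_smul w,
    (((Psi_smooth _ ℓ).const_smul _).comp crd.contDiff).const_smul w₂, fun i hi x => ?_,
    fun i hi x => ?_, fun x y h => by simp [h], fun x y h1 h2 => ?_, o1,
    fun v x h => by rw [inner_smul_right, o2 v _ h, mul_zero], fun T t1 t2 t3 t4 => ?_⟩
  · refine (Psi_bound f1 (Λ := 7 * M * R) (one_le_mul_of_one_le_of_one_le (by linarith) R1)
      (fun ν => ?_) hi w x).trans
      (le_trans ?_ p21)
    · rw [norm_smul, innerSL_apply_norm, he, mul_one, norm_of_nonneg (by positivity)]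
      have : (ν : ℝ) ≤ M := by exact_mod_cast ν.2.le
      gcongr
      linarith [pi_lt_d2]
    · rw [abs_of_pos p5, Fintype.card_fin]
      gcongr
      exact sqrt_le_self_iff.2 (Or.inr (by linarith))
  · simp only [φ, smul_smul]
    refine (Psi_bound f2 (ℓ := fun ξ => ℓ ξ ∘L crd) (Λ := 3 * M * m)
      (one_le_mul_of_one_le_of_one_le (by linarith) m1) (fun ξ =>
      (ContinuousLinearMap.opNorm_comp_le _ _).trans ((mul_le_mul (l1 ξ) c2 (norm_nonneg _)
      (by positivity)).trans_eq (mul_one _))) hi _ x).trans (le_trans ?_ p22)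
    rw [← hN, abs_of_pos (by positivity), sqrt_mul zero_le_two, mul_assoc, ← mul_assoc (√N)⁻¹,
      mul_left_comm (√N)⁻¹, inv_mul_cancel₀ (by positivity), mul_one]
    gcongr
    exact sqrt_le_self_iff.2 (Or.inr one_le_two)
  · refine congrArg (fun q => w₂ • φ q) (funext fun d => ?_)
    cases d
    exacts [h1, h2 _]
  have r1 : r ≤ η := le_of_mul_le_mul_right (p14.trans p12) G0
  have j0 : (0 : ℝ) < (2 * j : ℕ) := by positivity
  obtain ⟨Bad, b1, b2, b3⟩ := core (w := w) (R := R) (φ := φ) (T := T) (j := 2 * j)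
    ((Psi_smooth _ ℓ).const_smul _).continuous crd t1 p6 hb p8 p9 p12 r1 p15
    (kap hb (exp_pos _).le (by positivity) (pow_le_one₀ (by positivity) (by linarith)) p6 p7 p16)
    c1 k1 k2 (fun x => funext fun d => by
      cases d with
      | none => exact (t3 x).trans (add_zero _).symm
      | some p =>
        refine (t4 (.inl p) x).trans ?_
        rw [inner_add_right, inner_add_right, inner_smul_right, inner_smul_right,
          o2 _ _ fun p' => hf.2 Sum.inl_ne_inr, mul_zero, add_zero, Psi, f1.inner_right_fintype]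
        rfl) (fun x q => by
      have a1 := o2 (T x - _) q fun p => (real_inner_comm _ _).trans
        ((inner_sub_right _ _ _).trans (sub_eq_zero.2 (t4 (.inr p) x)))
      rw [inner_sub_left, sub_eq_zero, inner_add_left, inner_add_left, o2 (w • _) q fun p => by
        rw [real_inner_comm]
        exact o1 _ _ fun p' => hf.2 Sum.inr_ne_inl, add_zero, inner_smul_left] at a1
      exact a1) fun y hy σ i p hp => p10 ▸ deep p5 hb (by positivity) p1 p2 (by
        rw [p10]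
        positivity) p11 p13 p14 (exp_pos _).le k1 k2 p16 p17 p18 p19 p20 hy σ i hp
  rw [← BorelSpace.measurable_eq] at b1
  have b4 : ∀ σ (n : ℝ) (X : ℝ → H) (y v : H), Continuous X → ⟪e, v⟫ = 1 → (∀ c, ⟪e, X c⟫ = c) →
      (∀ c, cfg T σ (X c) = y + c • v) → volume {c | ∃ i, ⟪e, X c⟫ - (fr R M w).τ i ∈
      Set.Ico n (n + (R * M : ℝ)⁻¹) ∧ X c ∈ Bad σ i} ≤ ENNReal.ofReal ε :=
    fun σ n X y v d1 d2 d3 d4 => by
      simp only [d3]
      refine (vol_le (fr R M w).τ (fun i => d1.measurable (b1 σ i)) (fun t => b2 σ _ (y + t • v) v d2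
        fun s => by rw [d4, add_smul, add_assoc]) (by positivity)).trans_eq (congrArg _ ?_)
      field_simp
  refine ⟨fun n σ => {x | ∃ i, ⟪e, x⟫ - (fr R M w).τ i ∈ Set.Ico (n : ℝ) (n + (R * M : ℝ)⁻¹) ∧
    x ∈ Bad σ i}, fun n σ => ?_, fun n y v d1 d2 => ⟨b4 false n _ y v (by fun_prop) d2
      (fun c => by simp [inner_add_right, inner_smul_right, d1, d2]) fun c => rfl,
      b4 true n (fun c => T.symm (y + c • v)) y v (by fun_prop) d2 (fun c => by
        rw [← t3]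
        simp [inner_add_right, inner_smul_right, d1, d2]) fun c => T.apply_symm_apply _⟩,
    fun x d1 d2 => ?_⟩
  · simp only [Set.setOf_exists]
    exact .iUnion fun i => ((by fun_prop : Continuous fun x : H =>
      ⟪e, x⟫ - (fr R M w).τ i).measurable measurableSet_Ico).inter (b1 σ i)
  · obtain ⟨i, hi⟩ := tau_onto (w := w) G0 ⟪e, x⟫
    exact (b3 i x d1 d2).imp (fun h => ⟨i, hi, h⟩) fun h => ⟨i, hi, h⟩

end Pool.Agent.Lib.MP_5ea425_an.Smooth
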