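import Pool.Agent.Lib.MP_5ea425_an.All.DR

/-!
Nearly biorthogonal families with an upper `2`-estimate for the functionals, in any space.
-/

set_option autoImplicit false

open Finset

namespace Pool.Agent.Lib.MP_5ea425_an.Smooth

open Classical in
theorem indep {α : Type*} (bad : α → α → Prop) (D n : ℕ) : ∀ s : Finset α,
    (∀ i ∈ s, (s.filter fun j => bad i j).card ≤ D) → n * (2 * D + 1) ≤ s.card →
    ∃ t ⊆ s, t.card = n ∧ ∀ i ∈ t, ∀ j ∈ t, i ≠ j → ¬ bad i j := by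
  induction n with
  | zero => exact fun s _ _ => ⟨∅, by simp⟩
  | succ n ih =>
    intro s h1 h2
    have a0 : s.Nonempty := card_pos.1 (lt_of_lt_of_le (by positivity) h2)
    obtain ⟨i, a1, a2⟩ := exists_le_of_sum_le a0 (f := fun i => (s.filter fun j => bad j i).card)
      (g := fun _ => D) (by
        simp only [card_filter]
        rw [sum_comm]
        exact sum_le_sum fun j hj => (card_filter _ _).symm.trans_le (h1 j hj))
    set s' := s.filter fun j => j ≠ i ∧ ¬ bad i j ∧ ¬ bad j i with hs'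
    have a3 : s.card ≤ s'.card + (2 * D + 1) := by
      refine (card_le_card (t := s' ∪ (insert i ((s.filter fun j => bad i j) ∪
        s.filter fun j => bad j i))) fun j hj => ?_).trans ((card_union_le _ _).trans ?_)
      · simp only [hs', mem_union, mem_filter, mem_insert]
        tauto
      · have := (card_insert_le i _).trans (Nat.succ_le_succ (card_union_le
          (s.filter fun j => bad i j) (s.filter fun j => bad j i)))
        have := h1 i a1
        omega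
    obtain ⟨t, b1, b2, b3⟩ := ih s' (fun j hj => (card_le_card (filter_subset_filter _
      (filter_subset _ _))).trans (h1 j (mem_filter.1 hj).1)) (by nlinarith)
    have b4 := fun j hj => (mem_filter.1 (b1 (x := j) hj)).2
    refine ⟨insert i t, insert_subset a1 (b1.trans (filter_subset _ _)),
      by rw [card_insert_of_notMem fun h => (b4 i h).1 rfl, b2], fun x hx x' hx' e => ?_⟩
    rcases mem_insert.1 hx with rfl | d <;> rcases mem_insert.1 hx' with rfl | d'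
    exacts [absurd rfl e, (b4 _ d').2.1, (b4 _ d).2.2, b3 _ d _ d' e]

variable {X : Type*} [NormedAddCommGroup X] [NormedSpace ℝ X]

theorem near (hX : ¬ FiniteDimensional ℝ X) (Z : Finset X) (I : Type) [Fintype I] {κ : ℝ}
    (hκ : 0 < κ) : ∃ (e : I → X) (φ : I → X →L[ℝ] ℝ), (∀ j, ‖e j‖ ≤ 3) ∧ (∀ j, φ j (e j) = 1) ∧
      (∀ i j, i ≠ j → |φ j (e i)| ≤ κ) ∧ (∀ j, ∀ z ∈ Z, φ j z = 0) ∧
      ∀ f, ∑ j, φ j f ^ 2 ≤ ‖f‖ ^ 2 := by
  classical
  obtain ⟨D, hD⟩ := exists_nat_ge (9 / κ ^ 2)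
  obtain ⟨e, φ, h1, h2, h3, h4⟩ := All.exists_block hX Z (range (Fintype.card I * (2 * D + 1)))
  obtain ⟨t, a1, a2, a3⟩ := indep (fun i j => κ < |φ j (e i)|) D (Fintype.card I) _ (fun i hi => by
    refine Nat.cast_le.1 (le_trans ((le_div_iff₀ (by positivity)).2 ?_) hD)
    rw [← nsmul_eq_mul]
    refine (card_nsmul_le_sum _ (fun j => φ j (e i) ^ 2) _ fun j hj => ?_).trans
      ((sum_le_sum_of_subset_of_nonneg (fun j hj => (mem_filter.1 hj).1)
      fun _ _ _ => sq_nonneg _).trans ((h4 _).trans ?_))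
    · exact sq_le_sq.2 ((abs_of_pos hκ).trans_le (mem_filter.1 hj).2.le)
    · nlinarith [h1 i hi, norm_nonneg (e i)]) (card_range _).ge
  let g : I ≃ t := Fintype.equivOfCardEq (by simp [a2])
  refine ⟨fun j => e (g j), fun j => φ (g j), fun j => h1 _ (a1 (g j).2), fun j => h2 _ (a1 (g j).2),
    fun i j h => not_lt.1 (a3 _ (g i).2 _ (g j).2 fun e => h (g.injective (Subtype.ext e))),
    fun j => h3 _ (a1 (g j).2), fun f => le_trans ?_ (h4 f)⟩
  rw [g.sum_comp fun j => φ j f ^ 2, sum_coe_sort t fun j => φ j f ^ 2]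
  exact sum_le_sum_of_subset_of_nonneg a1 fun _ _ _ => sq_nonneg _

theorem biorth (hX : ¬ FiniteDimensional ℝ X) (Z : Finset X) (I : Type) [Fintype I]
    [DecidableEq I] : ∃ (f : I → X) (g : I → X →L[ℝ] ℝ), (∀ j, ‖f j‖ ≤ 6 * Fintype.card I) ∧
      (∀ i j, g j (f i) = if j = i then 1 else 0) ∧ (∀ j, ∀ z ∈ Z, g j z = 0) ∧
      ∀ j x, |g j x| ≤ ‖x‖ := by
  obtain ⟨e, φ, h1, h2, h3, h4, h5⟩ := near hX Z I (κ := (2 * (Fintype.card I + 1))⁻¹)
    (by positivity)
  let A : (I → ℝ) →ₗ[ℝ] I → ℝ :=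
    LinearMap.pi fun j => (φ j).toLinearMap ∘ₗ Fintype.linearCombination ℝ e
  have a1 : ∀ c, ‖c‖ ≤ 2 * ‖A c‖ := fun c => by
    have b1 : ‖c‖ ≤ ‖A c‖ + ‖c‖ / 2 := (pi_norm_le_iff_of_nonneg (by positivity)).2 fun j => by
      have c1 : c j = A c j - ∑ i ∈ univ.erase j, c i * φ j (e i) := by
        simp only [A, LinearMap.pi_apply, LinearMap.comp_apply, Fintype.linearCombination_apply,
          ContinuousLinearMap.coe_coe, map_sum, map_smul, smul_eq_mul]
        rw [← add_sum_erase _ _ (mem_univ j), h2, mul_one, add_sub_cancel_right]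
      rw [c1]
      refine (norm_sub_le _ _).trans (add_le_add (norm_le_pi_norm _ j) ((norm_sum_le _ _).trans
        ((sum_le_card_nsmul _ _ (‖c‖ * (2 * (Fintype.card I + 1 : ℝ))⁻¹) fun i hi => ?_).trans ?_)))
      · rw [norm_mul]
        exact mul_le_mul (norm_le_pi_norm c i) (h3 i j (ne_of_mem_erase hi)) (norm_nonneg _)
          (norm_nonneg _)
      · have c2 : ((univ.erase j).card : ℝ) ≤ Fintype.card I + 1 := by
          exact_mod_cast (card_le_univ _).trans (Nat.le_succ _)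
        rw [nsmul_eq_mul]
        refine (mul_le_mul_of_nonneg_right c2 (by positivity)).trans_eq ?_
        field_simp
    linarith
  have a2 : Function.Surjective A := LinearMap.injective_iff_surjective.1
    ((injective_iff_map_eq_zero A).2 fun c hc => norm_le_zero_iff.1 (by simpa [hc] using a1 c))
  choose c hc using fun i => a2 (Pi.single i 1)
  refine ⟨fun i => Fintype.linearCombination ℝ e (c i), φ, fun i => ?_,
    fun i j => (congrFun (hc i) j).trans (Pi.single_apply _ _ _), h4, fun j x => ?_⟩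
  · have b1 := a1 (c i)
    rw [hc, Pi.norm_single, norm_one] at b1
    simp only [Fintype.linearCombination_apply]
    refine (norm_sum_le _ _).trans ((sum_le_card_nsmul _ _ (2 * 1 * 3) fun j _ => ?_).trans_eq
      (by simp; ring))
    rw [norm_smul]
    exact mul_le_mul ((norm_le_pi_norm _ j).trans b1) (h1 j) (norm_nonneg _) (by norm_num)
  · exact abs_le_of_sq_le_sq ((single_le_sum (f := fun j => φ j x ^ 2) (fun _ _ => sq_nonneg _)
      (mem_univ j)).trans (h5 x)) (norm_nonneg x)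

theorem exists_proj (Γ : Finset (X →L[ℝ] ℝ)) : ∃ (Q : X →L[ℝ] X) (Z : Finset X),
    (∀ γ ∈ Γ, ∀ x, γ (Q x) = 0) ∧
      ∀ φ : X →L[ℝ] ℝ, (∀ z ∈ Z, φ z = 0) → ∀ x, φ (Q x) = φ x := by
  let p : X →L[ℝ] Γ → ℝ := .pi fun γ => γ.1
  obtain ⟨σ, hσ⟩ := p.toLinearMap.rangeRestrict.exists_rightInverse_of_surjective
    p.toLinearMap.range_rangeRestrict
  obtain ⟨Z, hZ⟩ : (LinearMap.range σ).FG := Module.Finite.iff_fg.1 inferInstance
  refine ⟨.id ℝ X - LinearMap.toContinuousLinearMap σ ∘L p.rangeRestrict, Z, fun γ hγ x => ?_,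
    fun φ h x => ?_⟩
  · have h1 : p (σ (p.rangeRestrict x)) = p x :=
      congrArg Subtype.val (LinearMap.congr_fun hσ (p.rangeRestrict x))
    exact (map_sub γ _ _).trans (sub_eq_zero.2 (congrFun h1 ⟨γ, hγ⟩).symm)
  · have h1 : LinearMap.range σ ≤ LinearMap.ker φ.toLinearMap :=
      hZ ▸ Submodule.span_le.2 fun z hz => h z hz
    exact (map_sub φ _ _).trans (sub_eq_self.2 (h1 ⟨_, rfl⟩))

theorem system (hX : ¬ FiniteDimensional ℝ X) (Z : Finset X) (Γ : Finset (X →L[ℝ] ℝ)) :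
    ∃ C : ℝ, 1 ≤ C ∧ ∀ (I J : Type) [Fintype I] [DecidableEq I] [Fintype J] (κ : ℝ), 0 < κ →
      ∃ (f : I → X) (g : I → X →L[ℝ] ℝ) (e : J → X) (φ : J → X →L[ℝ] ℝ),
      (∀ j, ‖f j‖ ≤ C * Fintype.card I) ∧ (∀ i j, g j (f i) = if j = i then 1 else 0) ∧
      (∀ j x, |g j x| ≤ ‖x‖) ∧ (∀ j, ‖e j‖ ≤ C * (1 + Fintype.card I ^ 2)) ∧ (∀ j, φ j (e j) = 1) ∧
      (∀ i j, i ≠ j → |φ j (e i)| ≤ κ) ∧ (∀ x, ∑ j, φ j x ^ 2 ≤ ‖x‖ ^ 2) ∧
      (∀ i j, g i (e j) = 0) ∧ (∀ i j, φ j (f i) = 0) ∧ (∀ z ∈ Z, (∀ j, g j z = 0) ∧ ∀ j, φ j z = 0) ∧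
      ∀ γ ∈ Γ, (∀ j, γ (f j) = 0) ∧ ∀ j, γ (e j) = 0 := by
  classical
  obtain ⟨Q, Z', q1, q2⟩ := exists_proj Γ
  have q0 := norm_nonneg Q
  refine ⟨18 * (‖Q‖ + 1) ^ 2, by nlinarith, fun I J _ _ _ κ hκ => ?_⟩
  obtain ⟨f, g, a1, a2, a3, a4⟩ := biorth hX (Z ∪ Z') I
  obtain ⟨e, φ, b1, b2, b3, b4, b5⟩ := near hX (Z ∪ Z' ∪ univ.image fun i => Q (f i)) J hκ
  have n0 : (0 : ℝ) ≤ Fintype.card I := Nat.cast_nonneg _
  have c1 : ∀ i x, g i (Q x) = g i x := fun i => q2 _ fun z hz => a3 i z (mem_union_right _ hz)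
  have c2 : ∀ j x, φ j (Q x) = φ j x := fun j => q2 _ fun z hz =>
    b4 j z (mem_union_left _ (mem_union_right _ hz))
  have c3 : ∀ i j, φ j (Q (f i)) = 0 := fun i j =>
    b4 j _ (mem_union_right _ (mem_image_of_mem _ (mem_univ i)))
  have c4 : ∀ i j, φ j (Q (e i) - ∑ l, g l (e i) • Q (f l)) = φ j (e i) := fun i j => by
    simp only [map_sub, map_sum, map_smul, c3, c2 j (e i), smul_zero, sum_const_zero, sub_zero]
  have c5 : ∀ j, ‖Q (f j)‖ ≤ ‖Q‖ * (6 * Fintype.card I) := fun j => Q.le_opNorm_of_le (a1 j)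
  refine ⟨fun i => Q (f i), g, fun j => Q (e j) - ∑ l, g l (e j) • Q (f l), φ,
    fun j => (c5 j).trans (by nlinarith [mul_nonneg q0 n0, mul_nonneg (sq_nonneg ‖Q‖) n0]),
    fun i j => (c1 _ _).trans (a2 i j), a4, fun j => ?_, fun j => (c4 j j).trans (b2 j),
    fun i j h => (c4 i j).symm ▸ b3 i j h, b5, fun i j => by simp [c1, a2], c3,
    fun z hz => ⟨fun j => a3 j z (mem_union_left _ hz),
      fun j => b4 j z (mem_union_left _ (mem_union_left _ hz))⟩,
    fun γ hγ => ⟨fun j => q1 γ hγ _, fun j => by simp [q1 γ hγ]⟩⟩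
  refine (norm_sub_le _ _).trans ((add_le_add (Q.le_opNorm_of_le (b1 j)) ((norm_sum_le _ _).trans
    (sum_le_card_nsmul _ _ (3 * (‖Q‖ * (6 * Fintype.card I))) fun l _ => ?_))).trans ?_)
  · rw [norm_smul]
    exact mul_le_mul ((a4 l _).trans (b1 j)) (c5 l) (norm_nonneg _) (by norm_num)
  · rw [nsmul_eq_mul, card_univ]
    nlinarith [mul_nonneg q0 (sq_nonneg (Fintype.card I : ℝ)),
      mul_nonneg (sq_nonneg ‖Q‖) (sq_nonneg (Fintype.card I : ℝ))]

end Pool.Agent.Lib.MP_5ea425_an.Smooth
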