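import Pool.Agent.Lib.MP_5ea425_an.Smooth.CoreB
import Pool.Agent.Lib.MP_5ea425_an.Smooth.ParB
import Pool.Agent.Lib.MP_5ea425_an.Smooth.Bump
import Pool.Agent.Lib.MP_5ea425_an.Smooth.Sys
import Pool.Agent.Lib.MP_5ea425_an.Smooth.Stage

/-!
One stage of the construction in a normed space.
-/

set_option autoImplicit false

open Finset Real MeasureTheory
open scoped ContDiff

namespace Pool.Agent.Lib.MP_5ea425_an.Smooth

variable {X : Type*} [NormedAddCommGroup X] [NormedSpace ℝ X]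

theorem feat_ker {A : Type*} [Fintype A] {e : A → X} {φ : A → X →L[ℝ] ℝ} {κ N : ℝ} (hκ : 0 ≤ κ)
    (h1 : ∀ j, φ j (e j) = 1) (h2 : ∀ i j, i ≠ j → |φ j (e i)| ≤ κ) {s t : A → ℝ}
    (hs : ∀ a, 0 ≤ s a) (ht : ∀ a, 0 ≤ t a) (hs' : ∑ a, s a ≤ N) (ht' : ∑ a, t a ≤ N) :
    |(∑ a, t a • φ a) (∑ a, s a • e a) - ∑ a, s a * t a| ≤ κ * N ^ 2 := by
  classical
  have a1 : (∑ a, t a • φ a) (∑ a, s a • e a) - ∑ a, s a * t a =
      ∑ a, ∑ a', t a * s a' * (φ a (e a') - if a' = a then 1 else 0) := by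
    simp only [ContinuousLinearMap.sum_apply, ContinuousLinearMap.smul_apply, map_sum, map_smul,
      smul_eq_mul, mul_sub, sum_sub_distrib, mul_ite, mul_one, mul_zero, sum_ite_eq', mem_univ,
      if_true, mul_sum]
    rw [sum_comm]
    congr 1
    exacts [sum_congr rfl fun _ _ => sum_congr rfl fun _ _ => by ring,
      sum_congr rfl fun _ _ => mul_comm _ _]
  have a2 := mul_le_mul ht' hs' (sum_nonneg fun a _ => hs a)
    ((sum_nonneg fun a _ => ht a).trans ht')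
  rw [a1, sq]
  refine le_trans ?_ (mul_le_mul_of_nonneg_left a2 hκ)
  rw [sum_mul_sum, mul_sum]
  refine (abs_sum_le_sum_abs _ _).trans (sum_le_sum fun a _ => ?_)
  rw [mul_sum]
  refine (abs_sum_le_sum_abs _ _).trans (sum_le_sum fun a' _ => ?_)
  rw [abs_mul, abs_of_nonneg (mul_nonneg (ht a) (hs a')), mul_comm]
  refine mul_le_mul_of_nonneg_right ?_ (mul_nonneg (ht a) (hs a'))
  split_ifs with h
  · simpa [h, h1] using hκ
  · simpa using h2 a' a h

theorem feat_sq {A α : Type*} [Fintype A] {c : A → ℝ} {β : A → α → ℝ} {N : ℝ} (hN : 0 ≤ N)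
    (h0 : ∀ a z, 0 ≤ β a z ∧ β a z ≤ 1) (h1 : ∀ z, ∑ a, β a z ≤ N) (S : Finset α)
    (h2 : ∀ z ∈ S, ∀ z' ∈ S, z ≠ z' → ∀ a, β a z * β a z' = 0) :
    ∑ z ∈ S, (∑ a, β a z * c a) ^ 2 ≤ N * ∑ a, c a ^ 2 := by
  have a1 : ∀ a, ∑ z ∈ S, β a z ≤ 1 := fun a => by
    by_cases h : ∃ z ∈ S, β a z ≠ 0
    · obtain ⟨z, b1, b2⟩ := h
      rw [sum_eq_single_of_mem z b1 fun z' c1 c2 => (mul_eq_zero.1 (h2 z' c1 z b1 c2 a)).resolve_right b2]
      exact (h0 a z).2
    · push Not at h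
      rw [sum_eq_zero h]
      exact zero_le_one
  refine (sum_le_sum (g := fun z => N * ∑ a, β a z * c a ^ 2) fun z _ => ?_).trans ?_
  · have b1 : ∀ a ∈ univ, 0 ≤ β a z * c a ^ 2 := fun a _ => mul_nonneg (h0 a z).1 (sq_nonneg _)
    exact (sum_sq_le_sum_mul_sum_of_sq_eq_mul _ (fun a _ => (h0 a z).1) b1
      fun a _ => by ring).trans (mul_le_mul_of_nonneg_right (h1 z) (sum_nonneg b1))
  · rw [← mul_sum, sum_comm]
    refine mul_le_mul_of_nonneg_left (sum_le_sum fun a _ => ?_) hN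
    rw [← sum_mul]
    exact mul_le_of_le_one_left (sq_nonneg _) (a1 a)

theorem stageB [MeasurableSpace X] [BorelSpace X] (hX : ¬ FiniteDimensional ℝ X) (p₀ : X →L[ℝ] ℝ)
    (hp : ∀ x, |p₀ x| ≤ ‖x‖) (k : ℕ) {ε b : ℝ} (hε : 0 < ε) (hε1 : ε ≤ 1) (hb : 1 ≤ b)
    (Z : Finset X) (Γ : Finset (X →L[ℝ] ℝ)) :
    ∃ (Z₁ : Finset X) (Γ₀ Γ₁ : Finset (X →L[ℝ] ℝ)) (u₁ u₂ : X → X),
      ContDiff ℝ ∞ u₁ ∧ ContDiff ℝ ∞ u₂ ∧
      (∀ i ≤ k, ∀ x, ‖iteratedFDeriv ℝ i u₁ x‖ ≤ ε) ∧ (∀ i ≤ k, ∀ x, ‖iteratedFDeriv ℝ i u₂ x‖ ≤ ε) ∧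
      (∀ z ∈ Z₁, ∀ γ ∈ Γ, γ z = 0) ∧ (∀ γ ∈ Γ₁, ∀ z ∈ Z, γ z = 0) ∧ Γ₀ ⊆ Γ₁ ∧
      (∀ x, p₀ (u₁ x) = 0 ∧ p₀ (u₂ x) = 0) ∧
      (∀ γ : X →L[ℝ] ℝ, (∀ z ∈ Z₁, γ z = 0) → ∀ x, γ (u₁ x) = 0 ∧ γ (u₂ x) = 0) ∧
      (∀ γ ∈ Γ₀, ∀ x, γ (u₂ x) = 0) ∧ (∀ x y, p₀ x = p₀ y → u₁ x = u₁ y) ∧
      (∀ x y, p₀ x = p₀ y → (∀ γ ∈ Γ₀, γ x = γ y) → u₂ x = u₂ y) ∧
      ∀ T : X ≃ X, Continuous T → Continuous T.symm → (∀ x, p₀ (T x) = p₀ x) →
        (∀ γ ∈ Γ₁, ∀ x, γ (T x) = γ (x + u₁ x + u₂ x)) → ∃ E : ℤ → Bool → Set X,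
        (∀ n σ, MeasurableSet (E n σ)) ∧ (∀ n y v, p₀ y = 0 → p₀ v = 1 →
          volume {c : ℝ | y + c • v ∈ E n false} ≤ ENNReal.ofReal ε ∧
          volume {c : ℝ | T.symm (y + c • v) ∈ E n true} ≤ ENNReal.ofReal ε) ∧
        ∀ x, ‖x‖ < b → ‖T x‖ ≤ b → x ∈ E ⌊p₀ x⌋ false ∪ E ⌊p₀ x⌋ true := by
  classical
  obtain ⟨C₁, hC₁, hs⟩ := system hX Z (insert p₀ Γ)
  obtain ⟨C₂, hC₂, hβ⟩ := bumps k
  obtain ⟨R, M, j, w, w₂, r, η, γ, p1, p2, p4, p5, p6, p8, p9, p10, p11, p12, p13, p14,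
    p15, p17, p18, p19, p20, p21, p22⟩ := paramsB k hε hε1 hb (C := 20 * C₁ + 16 * C₂)
    (by positivity)
  have R1 : (1 : ℝ) ≤ R := by exact_mod_cast p1
  have M1 : (1 : ℝ) ≤ M := by exact_mod_cast p2
  have G0 : (0 : ℝ) < R * M := by positivity
  have r1 : r ≤ η := le_of_mul_le_mul_right (p14.trans p12) G0
  obtain ⟨A, _, β, s1, s2, s3, s4, s5⟩ := hβ (Option (Fin M × Bool)) r b p13
  have n1 : (Fintype.card (Option (Fin M × Bool)) + 1 : ℝ) ≤ 4 * M := by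
    simp only [Fintype.card_option, Fintype.card_prod, Fintype.card_fin, Fintype.card_bool]
    push_cast
    linarith
  have n2 : (Fintype.card (Fin M × Bool) : ℝ) = 2 * M := by simp [mul_comm]
  have s6 : ∀ p, ∑ a, β a p ≤ 4 * M := fun p => by
    have := s3 0 k.zero_le p
    simp only [norm_iteratedFDeriv_zero, pow_zero, mul_one] at this
    exact (sum_le_sum fun a _ => le_abs_self _).trans (this.trans n1)
  obtain ⟨f, g, e, φ, y1, y2, y3, y4, y5, y6, y7, y8, y9, y10, y11⟩ :=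
    hs (Fin M × Bool) A ((η / 8) ^ (2 * j) / 4 / (4 * M) ^ 2) (by positivity)
  rw [n2] at y1 y4
  let crd : X →L[ℝ] Bs M := .pi fun d => d.elim p₀ g
  have c1 : ∀ x d, |crd x d| ≤ ‖x‖ := fun x d => by
    cases d
    exacts [hp x, y3 _ x]
  have c2 : ‖crd‖ ≤ 1 := ContinuousLinearMap.opNorm_le_bound _ zero_le_one fun x =>
    (pi_norm_le_iff_of_nonneg (by positivity)).2 fun d => (c1 x d).trans_eq (one_mul _).symm
  let ψ : Bs M → X →L[ℝ] ℝ := fun q => ∑ a, β a q • φ a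
  have k0 : ∀ p q, |ψ q (∑ a, β a p • e a) - ∑ a, β a p * β a q| ≤ (η / 8) ^ (2 * j) / 4 :=
    fun p q => (feat_ker (by positivity) y5 y6 (fun a => (s2 a p).1) (fun a => (s2 a q).1) (s6 p)
      (s6 q)).trans_eq (by field_simp)
  have l1 : ∀ p : Fin M × Bool, ContDiff ℝ ∞ (trig p.2 ∘ ⇑((2 * π * p.1 * R) • p₀ : X →L[ℝ] ℝ)) :=
    fun p => (trig_smooth _).comp (ContinuousLinearMap.contDiff _)
  have l2 : ∀ a, ContDiff ℝ ∞ (β a ∘ crd) := fun a => (s1 a).comp crd.contDiff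
  have o1 : ∀ (γ : X →L[ℝ] ℝ) (c : Fin M × Bool → ℝ), (∀ p, γ (f p) = 0) →
      γ (∑ p, c p • w • f p) = 0 := fun γ c h => by simp [h]
  have o2 : ∀ (γ : X →L[ℝ] ℝ) (c : A → ℝ), (∀ a, γ (e a) = 0) →
      γ (∑ a, c a • w₂ • e a) = 0 := fun γ c h => by simp [h]
  refine ⟨univ.image f ∪ univ.image e, univ.image g, univ.image g ∪ univ.image φ,
    fun x => ∑ p : Fin M × Bool, (trig p.2 ∘ ⇑((2 * π * p.1 * R) • p₀ : X →L[ℝ] ℝ)) x • w • f p,
    fun x => ∑ a, (β a ∘ crd) x • w₂ • e a, ContDiff.sum fun p _ => (l1 p).smul contDiff_const,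
    ContDiff.sum fun a _ => (l2 a).smul contDiff_const, fun i hi x => ?_, fun i hi x => ?_,
    fun z hz γ hγ => ?_, fun γ hγ z hz => ?_, subset_union_left,
    fun x => ⟨o1 _ _ (y11 _ (mem_insert_self _ _)).1, o2 _ _ (y11 _ (mem_insert_self _ _)).2⟩,
    fun γ h x => ⟨o1 _ _ fun p => h _ (mem_union_left _ (mem_image_of_mem _ (mem_univ _))),
      o2 _ _ fun p => h _ (mem_union_right _ (mem_image_of_mem _ (mem_univ _)))⟩,
    fun γ hγ x => ?_, fun x y h => by simp [h], fun x y h1 h2 => ?_, fun T t1 t2 t3 t4 => ?_⟩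
  · refine (smul_sum_le l1 (C := w * (C₁ * (2 * M))) (fun p => ?_) i x).trans (le_trans
      (mul_le_mul_of_nonneg_left (sum_le_card_nsmul _ _ ((7 * M * R : ℝ) ^ k) fun p _ => ?_)
      (by positivity)) (le_trans ?_ p21))
    · rw [norm_smul, norm_of_nonneg p5.le]
      exact mul_le_mul_of_nonneg_left (y1 p) p5.le
    · refine (comp_le (trig_smooth _) _ i x).trans ?_
      rw [norm_iteratedFDeriv_eq_norm_iteratedDeriv, ← one_mul ((7 * M * R : ℝ) ^ k)]
      refine mul_le_mul ?_ ((pow_le_pow_left₀ (norm_nonneg _) (ContinuousLinearMap.opNorm_le_bound _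
        (by positivity) fun x => ?_) i).trans (pow_le_pow_right₀
        (one_le_mul_of_one_le_of_one_le (by linarith) R1) hi)) (by positivity) zero_le_one
      · obtain ⟨_, t⟩ := p
        cases t
        exacts [abs_iteratedDeriv_cos_le_one _ _, abs_iteratedDeriv_sin_le_one _ _]
      · have : (p.1 : ℝ) ≤ M := by exact_mod_cast p.1.2.le
        rw [ContinuousLinearMap.smul_apply, norm_smul, norm_of_nonneg (by positivity)]
        gcongr
        exacts [by linarith [pi_lt_d2], hp x]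
    · rw [nsmul_eq_mul, card_univ, n2, show w * (C₁ * (2 * M)) * (2 * M * (7 * M * R) ^ k) =
        w * (4 * C₁ * M ^ 2 * (7 * M * R) ^ k) by ring]
      gcongr ?_ * (?_ * _ * _)
      linarith
  · refine (smul_sum_le l2 (C := w₂ * (5 * C₁ * M ^ 2)) (fun a => ?_) i x).trans (le_trans
      (mul_le_mul_of_nonneg_left ((sum_le_sum fun a _ => (comp_le (s1 a) crd i x).trans
      (mul_le_of_le_one_right (norm_nonneg _) (pow_le_one₀ (norm_nonneg _) c2))).trans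
      ((s3 i hi _).trans (mul_le_mul n1 ((pow_le_pow_left₀ (by positivity)
      (b := (20 * C₁ + 16 * C₂) * M ^ 2 / r) ?_ i).trans (pow_le_pow_right₀ ?_ hi)) (by positivity)
      (by positivity)))) (by positivity)) (le_trans ?_ p22))
    · rw [norm_smul, norm_of_nonneg p6.le]
      refine mul_le_mul_of_nonneg_left ((y4 a).trans ?_) p6.le
      linarith [mul_le_mul_of_nonneg_left (one_le_pow₀ M1 (n := 2)) (by linarith : 0 ≤ C₁)]
    · refine div_le_div_of_nonneg_right ((mul_le_mul_of_nonneg_left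
        (pow_le_pow_left₀ (by positivity) n1 2) (by positivity)).trans ?_) p13.le
      linarith [mul_nonneg (by linarith : 0 ≤ C₁) (sq_nonneg (M : ℝ))]
    · exact (one_le_div p13).2 ((r1.trans p9).trans
        (one_le_mul_of_one_le_of_one_le (by linarith) (one_le_pow₀ M1)))
    · rw [show ∀ t : ℝ, w₂ * (5 * C₁ * M ^ 2) * (4 * M * t) = w₂ * (20 * C₁ * M ^ 3 * t) from
        fun t => by ring]
      gcongr ?_ * (?_ * _ * _)
      linarith
  · rcases mem_union.1 hz with h | h <;> obtain ⟨p, -, rfl⟩ := mem_image.1 h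
    exacts [(y11 γ (mem_insert_of_mem hγ)).1 p, (y11 γ (mem_insert_of_mem hγ)).2 p]
  · rcases mem_union.1 hγ with h | h <;> obtain ⟨p, -, rfl⟩ := mem_image.1 h
    exacts [(y10 z hz).1 p, (y10 z hz).2 p]
  · obtain ⟨p, -, rfl⟩ := mem_image.1 hγ
    exact o2 _ _ (y8 p)
  · have : crd x = crd y := funext fun d => by
      cases d
      exacts [h1, h2 _ (mem_image_of_mem _ (mem_univ _))]
    simp only [Function.comp_apply, this]
  have j0 : (0 : ℝ) < (2 * j : ℕ) := by positivity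
  have a1 : (η / 8) ^ (2 * j) ≤ 1 := pow_le_one₀ (by positivity) (by linarith)
  obtain ⟨Bad, b1, b2, b3⟩ := coreB (w := w) (R := R) (ψ := ψ) (T := T) (j := 2 * j) (b := b)
    (K := fun p q => ψ q (∑ a, β a p • e a))
    (continuous_finset_sum _ fun a _ => (s1 a).continuous.smul continuous_const) crd t1 p6 p8 p9 p12
    r1 p15 c1 (fun q hq => by
      obtain ⟨a, ha⟩ := s4 q hq
      have d1 := single_le_sum (f := fun a => β a q * β a q) (fun _ _ => mul_self_nonneg _)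
        (mem_univ a)
      rw [ha] at d1
      linarith [abs_le.1 (k0 q q)])
    (fun p q d h => by simpa only [s5 _ p q d h, sum_const_zero, sub_zero] using k0 p q)
    (fun x => funext fun d => by
      cases d with
      | none => exact (t3 x).trans (add_zero _).symm
      | some p =>
        refine (t4 (g p) (mem_union_left _ (mem_image_of_mem _ (mem_univ _))) x).trans ?_
        rw [map_add, map_add, o2 _ _ (y8 p), add_zero]
        simp [y2, crd, fr, mul_comm]) (fun x q => by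
      have d1 : ψ q (T x) = ψ q (x + ∑ p : Fin M × Bool, (trig p.2 ∘ ⇑((2 * π * p.1 * R) • p₀ :
          X →L[ℝ] ℝ)) x • w • f p + ∑ a, (β a ∘ crd) x • w₂ • e a) := by
        simp only [ψ, ContinuousLinearMap.sum_apply, ContinuousLinearMap.smul_apply]
        exact sum_congr rfl fun a _ => congrArg _
          (t4 (φ a) (mem_union_right _ (mem_image_of_mem _ (mem_univ _))) x)
      rw [d1, map_add, map_add, o1 _ _ fun p => by simp [ψ, y9], add_zero, ← smul_eq_mul,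
        ← map_smul, smul_sum]
      simp only [Function.comp_apply, smul_comm w₂]) fun y hy σ i p hp => p10 ▸ deepB p5 hb
      (by positivity) p1 p2 (by
        rw [p10]
        positivity) p11 p13.le p14 p17 p18 p19 p20 (fun S hS => by
        simp only [ψ, ContinuousLinearMap.sum_apply, ContinuousLinearMap.smul_apply, smul_eq_mul]
        refine (feat_sq (β := fun a (z : Fin M × Bs M) => β a z.2) (by positivity)
          (fun a z => s2 a _) (fun z => s6 _) S fun z hz z' hz' h a => ?_).trans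
          (mul_le_mul_of_nonneg_left ((y7 y).trans (pow_le_pow_left₀ (norm_nonneg _) hy 2))
          (by positivity))
        obtain ⟨d, hd⟩ := hS z hz z' hz' h
        exact s5 a _ _ d hd) σ i hp
  rw [← BorelSpace.measurable_eq] at b1
  have b4 : ∀ σ (n : ℝ) (Y : ℝ → X) (y v : X), Continuous Y → p₀ v = 1 → (∀ c, p₀ (Y c) = c) →
      (∀ c, cf T σ (Y c) = y + c • v) → volume {c | ∃ i, p₀ (Y c) - (fr R M w).τ i ∈
      Set.Ico n (n + (R * M : ℝ)⁻¹) ∧ Y c ∈ Bad σ i} ≤ ENNReal.ofReal ε :=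
    fun σ n Y y v d1 d2 d3 d4 => by
      simp only [d3]
      refine (vol_le (fr R M w).τ (fun i => d1.measurable (b1 σ i)) (fun t => b2 σ _ (y + t • v) v d2
        fun s => by rw [d4, add_smul, add_assoc]) (by positivity)).trans_eq (congrArg _ ?_)
      field_simp
  refine ⟨fun n σ => {x | ∃ i, p₀ x - (fr R M w).τ i ∈ Set.Ico (n : ℝ) (n + (R * M : ℝ)⁻¹) ∧
    x ∈ Bad σ i}, fun n σ => ?_, fun n y v d1 d2 => ⟨b4 false n _ y v (by fun_prop) d2
      (fun c => by simp [d1, d2]) fun c => rfl,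
      b4 true n (fun c => T.symm (y + c • v)) y v (by fun_prop) d2 (fun c => by
        rw [← t3]
        simp [d1, d2]) fun c => T.apply_symm_apply _⟩, fun x d1 d2 => ?_⟩
  · simp only [Set.setOf_exists]
    exact .iUnion fun i => ((by fun_prop : Continuous fun x : X =>
      p₀ x - (fr R M w).τ i).measurable measurableSet_Ico).inter (b1 σ i)
  · obtain ⟨i, hi⟩ := tau_onto (w := w) G0 (p₀ x)
    exact (b3 i x d1 d2).imp (fun h => ⟨i, hi, h⟩) fun h => ⟨i, hi, h⟩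

end Pool.Agent.Lib.MP_5ea425_an.Smooth
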