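import Mathlib

/-!
Trees of lines that alternate between two coordinate systems: openness, pruning and transfer.
-/

set_option autoImplicit false

open Finset

namespace Pool.Agent.Lib.MP_5ea425_an.Smooth

/-- The weight of a side. -/
def sg (σ : Bool) : ℝ := if σ then 1 else 0

/-- A base space with a time coordinate, a curve transversal to it and a set of labelled times. -/
structure Fr (B L : Type) [NormedAddCommGroup B] [NormedSpace ℝ B] where
  t : B →L[ℝ] ℝ
  E : ℝ → B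
  τ : L → ℝ
  hE : ∀ s, t (E s) = 0
  cE : Continuous E

variable {B L : Type} [NormedAddCommGroup B] [NormedSpace ℝ B] (Φ : Fr B L)

/-- The point with label `i'` on the line of side `σ` and direction `a` through `p`. -/
def Fr.ch (σ : Bool) (i i' : L) (a p : B) : B :=
  p + (Φ.τ i' - Φ.τ i) • a + sg σ • (Φ.E (Φ.t p) - Φ.E (Φ.t p + (Φ.τ i' - Φ.τ i)))

/-- Trees of depth `r` with at least `g` children at each node and leaves in `Leaf`. -/
def Fr.Tr (Leaf : B → Prop) (g : ℝ) : ℕ → Bool → L → B → Prop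
  | 0, _, _, p => Leaf p
  | r + 1, σ, i, p => ∃ (a : B) (C : Finset L), Φ.t a = 1 ∧ g ≤ C.card ∧
      ∀ i' ∈ C, Fr.Tr Leaf g r (!σ) i' (Φ.ch σ i i' a p)

theorem Fr.t_ch (σ : Bool) {i : L} (i' : L) {a p : B} {t₀ : ℝ} (ha : Φ.t a = 1)
    (hp : Φ.t p = t₀ + Φ.τ i) : Φ.t (Φ.ch σ i i' a p) = t₀ + Φ.τ i' := by
  simp only [Fr.ch, map_add, map_smul, map_sub, Φ.hE, ha, hp, smul_eq_mul]
  ring

theorem Fr.isOpen_tr {X : Type*} [TopologicalSpace X] {Leaf : X → B → Prop}
    (h : IsOpen {z : X × B | Leaf z.1 z.2}) (g : ℝ) (r : ℕ) : ∀ (σ : Bool) (i : L) (P : X → B),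
    Continuous P → IsOpen {x | Φ.Tr (Leaf x) g r σ i (P x)} := by
  induction r with
  | zero => exact fun σ i P hP => h.preimage (continuous_id.prodMk hP)
  | succ r ih =>
    intro σ i P hP
    have e : {x | Φ.Tr (Leaf x) g (r + 1) σ i (P x)} = ⋃ (a : B) (C : Finset L)
        (_ : Φ.t a = 1 ∧ g ≤ C.card), ⋂ i' ∈ C,
        {x | Φ.Tr (Leaf x) g r (!σ) i' (Φ.ch σ i i' a (P x))} := by
      ext x
      simp [Fr.Tr, and_assoc]
    rw [e]
    refine isOpen_iUnion fun a => isOpen_iUnion fun C => isOpen_iUnion fun _ =>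
      isOpen_biInter_finset fun i' _ => ih _ _ _ ?_
    have := Φ.cE
    unfold Fr.ch
    fun_prop

open Classical in
/-- The number of labels with a property. -/
noncomputable def cnt [Fintype L] (P : L → Prop) : ℝ := (univ.filter P).card

variable [Fintype L]

theorem cnt_nonneg (P : L → Prop) : 0 ≤ cnt P := Nat.cast_nonneg _

theorem cnt_mono {P Q : L → Prop} (h : ∀ s, P s → Q s) : cnt P ≤ cnt Q :=
  Nat.cast_le.2 (card_le_card fun s hs => by simpa using h s (by simpa using hs))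

theorem cnt_or (P Q : L → Prop) : cnt (fun s => P s ∨ Q s) ≤ cnt P + cnt Q := by
  classical
  unfold cnt
  rw [← Nat.cast_add, Nat.cast_le]
  refine le_trans (card_le_card fun s hs => ?_) (card_union_le _ _)
  simpa using hs

theorem cnt_eq (P : L → Prop) [DecidablePred P] : cnt P = ∑ s, if P s then 1 else 0 := by
  unfold cnt
  rw [natCast_card_filter]
  exact sum_congr rfl fun s _ => by congr

theorem cnt_ex (j : ℕ) (P : ℕ → L → Prop) {β : ℝ} (h : ∀ r < j, cnt (P r) ≤ β) :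
    cnt (fun s => ∃ r < j, P r s) ≤ j * β := by
  induction j with
  | zero => simp [cnt]
  | succ j ih =>
    refine (cnt_mono (Q := fun s => (∃ r < j, P r s) ∨ P j s) ?_).trans
      ((cnt_or _ _).trans ?_)
    · rintro s ⟨r, h1, h2⟩
      rcases Nat.lt_succ_iff_lt_or_eq.1 h1 with h3 | rfl
      exacts [Or.inl ⟨r, h3, h2⟩, Or.inr h2]
    · push_cast
      linarith [ih fun r hr => h r (by omega), h j (by omega)]

open Classical in
theorem markov (C : Finset L) (Gd : L → L → Prop) {β g : ℝ} (hβ0 : 0 ≤ β)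
    (hβ : ∀ i ∈ C, cnt (fun s => ¬ Gd i s) ≤ β) (hg : 2 * g ≤ C.card) :
    cnt (fun s => ((C.filter fun i => Gd i s).card : ℝ) < g) ≤ 2 * β := by
  by_cases hC : (C.card : ℝ) = 0
  · refine (cnt_mono (Q := fun _ => False) fun s hs => ?_).trans (by simpa [cnt] using hβ0)
    have : (0 : ℝ) ≤ (C.filter fun i => Gd i s).card := Nat.cast_nonneg _
    linarith
  have h0 : (0 : ℝ) < C.card := lt_of_le_of_ne (Nat.cast_nonneg _) (Ne.symm hC)
  have h1 : ∑ s, ∑ i ∈ C, (if ¬ Gd i s then (1 : ℝ) else 0) ≤ C.card * β := by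
    rw [sum_comm, ← nsmul_eq_mul]
    exact sum_le_card_nsmul _ _ _ fun i hi => (cnt_eq _).symm.trans_le (hβ i hi)
  have h2 : cnt (fun s => ((C.filter fun i => Gd i s).card : ℝ) < g) * (C.card / 2) ≤
      ∑ s, ∑ i ∈ C, (if ¬ Gd i s then (1 : ℝ) else 0) := by
    rw [cnt_eq, sum_mul]
    refine sum_le_sum fun s _ => ?_
    rw [← natCast_card_filter]
    have a1 : ((C.filter fun i => Gd i s).card : ℝ) + (C.filter fun i => ¬ Gd i s).card =
      C.card := by exact_mod_cast card_filter_add_card_filter_not _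
    have a2 : (0 : ℝ) ≤ (C.filter fun i => ¬ Gd i s).card := Nat.cast_nonneg _
    split_ifs <;> linarith
  nlinarith

theorem Fr.prune {Leaf : B → Prop} {Leaf' : L → B → Prop} {t₀ β g : ℝ} (hβ0 : 0 ≤ β)
    (h : ∀ q i, Φ.t q = t₀ + Φ.τ i → Leaf q → cnt (fun s => ¬ Leaf' s q) ≤ β) (r : ℕ) :
    ∀ (σ : Bool) (i : L) (p : B), Φ.t p = t₀ + Φ.τ i → Φ.Tr Leaf g r σ i p →
      cnt (fun s => ¬ Φ.Tr (Leaf' s) (g / 2) r σ i p) ≤ 2 ^ r * β := by
  classical
  induction r with
  | zero => exact fun σ i p h1 h2 => (h p i h1 h2).trans_eq (by simp)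
  | succ r ih =>
    rintro σ i p h1 ⟨a, C, h2, h3, h4⟩
    have h5 := markov C (fun i' s => Φ.Tr (Leaf' s) (g / 2) r (!σ) i' (Φ.ch σ i i' a p))
      (g := g / 2) (by positivity) (fun i' hi => ih _ _ _ (Φ.t_ch σ i' h2 h1) (h4 i' hi))
      (by linarith)
    refine (cnt_mono fun s hs => ?_).trans (h5.trans_eq (by ring))
    exact not_le.1 fun h6 => hs ⟨a, _, h2, h6, fun i' hi => (mem_filter.1 hi).2⟩

/-- Along one line of side `σ`: few labels carry a tree of depth `r` but not the tree of depth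
`r + 1` that starts along this line. -/
theorem Fr.transfer {Leaf Leaf' : L → B → Prop} {t₀ β g g₀ : ℝ} (hβ0 : 0 ≤ β) (hg : g ≤ g₀)
    (h : ∀ s' q i, Φ.t q = t₀ + Φ.τ i → Leaf s' q → cnt (fun s => ¬ Leaf' s q) ≤ β) {r : ℕ}
    (hr : 2 ^ (r + 1) * β ≤ g₀) {σ : Bool} {a : B} (ha : Φ.t a = 1) {p : L → B}
    (hp : ∀ s, Φ.t (p s) = t₀ + Φ.τ s) (hl : ∀ s s', Φ.ch σ s s' a (p s) = p s') :
    cnt (fun s => Φ.Tr (Leaf s) g r (!σ) s (p s) ∧
      ¬ Φ.Tr (Leaf' s) (g / 2) (r + 1) σ s (p s)) ≤ g₀ := by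
  classical
  by_cases h1 : cnt (fun s => Φ.Tr (Leaf s) g r (!σ) s (p s)) ≤ g₀
  · exact (cnt_mono fun s hs => hs.1).trans h1
  have h5 := markov (univ.filter fun s => Φ.Tr (Leaf s) g r (!σ) s (p s))
    (fun i' s => Φ.Tr (Leaf' s) (g / 2) r (!σ) i' (p i')) (g := g / 2) (β := 2 ^ r * β)
    (by positivity) (fun i' hi => Φ.prune hβ0 (h i') r _ _ _ (hp i') (mem_filter.1 hi).2)
    (by
      have := hg.trans (not_le.1 h1).le
      rw [mul_div_cancel₀ _ two_ne_zero]
      refine this.trans_eq ?_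
      unfold cnt
      congr)
  refine (cnt_mono fun s hs => ?_).trans (h5.trans ((le_of_eq (by ring)).trans hr))
  exact not_le.1 fun h6 => hs.2 ⟨a, _, ha, h6, fun i' hi => (hl s i').symm ▸ (mem_filter.1 hi).2⟩

end Pool.Agent.Lib.MP_5ea425_an.Smooth
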